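import Pool.Agent.FDC.Targets

set_option autoImplicit false

/-!
# FDC-3: the ascent in the double complex
-/

namespace Pool.Agent.FDC

namespace AscAux

open Classical

variable {G S : Type} {T : G → S → G} {M d : ℕ} {Q : Type}

/-- the cone operator at a point -/
noncomputable def kap (T : G → S → G) (d : ℕ) (V : Q → Set (Pos G M)) (x : Pos G M) :
    Ch Q →+ Ch Q :=
  if h : ∃ q, x ∈ Th T (d + 1) (V q) then cone h.choose else 0

/-- the cone operator on cochains -/
noncomputable def kapF (T : G → S → G) (d : ℕ) (V : Q → Set (Pos G M))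
    (e : Cell G S M → Ch Q) : Cell G S M → Ch Q :=
  fun z => kap T d V (pos M z) (e z)

/-- the zigzag -/
noncomputable def ee (T : G → S → G) (d : ℕ) (V : Q → Set (Pos G M)) (c : Cell G S M → ZMod 2) :
    ℕ → (Cell G S M → Ch Q)
  | 0 => base c
  | p + 1 => dl T (Ch Q) M (kapF T d V (ee T d V c p))

theorem dl_ee (V : Q → Set (Pos G M)) (c : Cell G S M → ZMod 2)
    (hc : dl T (ZMod 2) M c = 0) (p : ℕ) : dl T (Ch Q) M (ee T d V c p) = 0 := by
  cases p with
  | zero =>
    change dl T (Ch Q) M (fun z => Finsupp.singleAddHom ∅ (c z)) = 0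
    rw [dl_comp, hc]
    funext z
    simp
  | succ p => exact dl_dl T M _

theorem kapF_support {V : Q → Set (Pos G M)} {e : Cell G S M → Ch Q} {z : Cell G S M}
    {τ : Finset Q} (h : kapF T d V e z τ ≠ 0) :
    ∃ q τ', q ∉ τ' ∧ τ = insert q τ' ∧ e z τ' ≠ 0 ∧ pos M z ∈ Th T (d + 1) (V q) := by
  unfold kapF kap at h
  split_ifs at h with h1
  · obtain ⟨τ', h2, h3, h4⟩ := cone_support h
    exact ⟨h1.choose, τ', h2, h3, h4, h1.choose_spec⟩
  · exact absurd rfl h

/-- the support statement -/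
def Sup (T : G → S → G) (d n : ℕ) (V : Q → Set (Pos G M)) (U : Set (Pos G M)) (p : ℕ)
    (e : Cell G S M → Ch Q) : Prop :=
  ∀ z τ, e z τ ≠ 0 → τ.card = p ∧ deg M z < n + p ∧ pos M z ∈ Th T p U ∧
    ∀ q ∈ τ, pos M z ∈ Th T (d + 1 + p) (V q)

theorem kapF_sup {V : Q → Set (Pos G M)} {U : Set (Pos G M)} {n p : ℕ} {e : Cell G S M → Ch Q}
    (he : Sup T d n V U p e) {z : Cell G S M} {τ : Finset Q} (h : kapF T d V e z τ ≠ 0) :
    τ.card = p + 1 ∧ deg M z < n + p ∧ pos M z ∈ Th T p U ∧
      ∀ q ∈ τ, pos M z ∈ Th T (d + 1 + p) (V q) := by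
  obtain ⟨q, τ', h1, h2, h3, h4⟩ := kapF_support h
  obtain ⟨h5, h6, h7, h8⟩ := he z τ' h3
  refine ⟨?_, h6, h7, ?_⟩
  · rw [h2, Finset.card_insert_of_notMem h1, h5]
  · intro q' hq'
    rw [h2, Finset.mem_insert] at hq'
    rcases hq' with rfl | hq'
    · exact Th_mono (by omega) (le_refl _) h4
    · exact h8 q' hq'

theorem sup_ee (V : Q → Set (Pos G M)) (U : Set (Pos G M)) (n : ℕ) (c : Cell G S M → ZMod 2)
    (hc : c ∈ CS (ZMod 2) S U n) (p : ℕ) : Sup T d n V U p (ee T d V c p) := by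
  induction p with
  | zero =>
    intro z τ h
    have h1 : τ = ∅ := by
      by_contra h1
      apply h
      change (Finsupp.single (∅ : Finset Q) (c z)) τ = 0
      exact Finsupp.single_eq_of_ne h1
    subst h1
    have h2 : c z ≠ 0 := by
      intro h2
      apply h
      change (Finsupp.single (∅ : Finset Q) (c z)) ∅ = 0
      rw [h2]; simp
    obtain ⟨h3, h4⟩ := hc z h2
    refine ⟨rfl, h4, subset_Th 0 U h3, ?_⟩
    intro q hq
    exact absurd hq (Finset.notMem_empty q)
  | succ p ih =>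
    intro z τ h
    have h0 : dl T (ZMod 2) M
        (fun z => Finsupp.applyAddHom τ (kapF T d V (ee T d V c p) z)) z ≠ 0 := by
      rw [dl_comp]
      exact h
    obtain ⟨w, hw, h1, h2⟩ := dl_local (T := T) M _ z h0
    obtain ⟨h3, h4, h5, h6⟩ := kapF_sup ih (z := w) (τ := τ) hw
    refine ⟨h3, by omega, ?_, ?_⟩
    · have h7 : pos M z ∈ Th T (1 + p) U := Th_Th U ⟨pos M w, h5, h1⟩
      exact Th_mono (by omega) (le_refl _) h7
    · intro q hq
      have h7 : pos M z ∈ Th T (1 + (d + 1 + p)) (V q) := Th_Th (V q) ⟨pos M w, h6 q hq, h1⟩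
      exact Th_mono (by omega) (le_refl _) h7

theorem bd_kapF {V : Q → Set (Pos G M)} {U : Set (Pos G M)} {n p : ℕ}
    (hU : ∀ x ∈ U, ∃ q, x ∈ V q) (hp : p ≤ d + 1) {e : Cell G S M → Ch Q}
    (he : Sup T d n V U p e) (hb : ∀ z, bd Q (e z) = 0) (z : Cell G S M) :
    bd Q (kapF T d V e z) = e z := by
  by_cases h0 : e z = 0
  · unfold kapF
    rw [h0, map_zero, map_zero]
  · obtain ⟨τ, hτ⟩ := Finsupp.ne_iff.1 h0
    obtain ⟨_, _, ⟨y, hy, hxy⟩, _⟩ := he z τ hτ
    obtain ⟨q, hq⟩ := hU y hy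
    have h1 : ∃ q, pos M z ∈ Th T (d + 1) (V q) := ⟨q, y, hq, hxy.mono hp⟩
    unfold kapF kap
    rw [dif_pos h1]
    exact bd_cone_of_cycle (hb z)

theorem bd_ee (V : Q → Set (Pos G M)) (U : Set (Pos G M)) (n : ℕ)
    (hU : ∀ x ∈ U, ∃ q, x ∈ V q) (c : Cell G S M → ZMod 2)
    (hc : c ∈ CS (ZMod 2) S U n) (hd : dl T (ZMod 2) M c = 0) (p : ℕ) (hp : p ≤ d + 1) :
    ∀ z, bd Q (ee T d V c p z) = 0 := by
  induction p with
  | zero =>
    intro z
    change bd Q (Finsupp.single ∅ (c z)) = 0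
    rw [bd_single]
    simp
  | succ p ih =>
    intro z
    have ih' := ih (by omega)
    have h1 : (fun z => bd Q (kapF T d V (ee T d V c p) z)) = ee T d V c p := by
      funext z
      exact bd_kapF hU (by omega) (sup_ee V U n c hc p) ih' z
    have h2 := dl_comp T (bd Q) M (kapF T d V (ee T d V c p))
    rw [h1, dl_ee V c hd p] at h2
    exact (congrFun h2 z).symm

theorem telescope (V : Q → Set (Pos G M)) (c : Cell G S M → ZMod 2) (z : Cell G S M) (m : ℕ) :
    ∑ p ∈ Finset.range m, (ee T d V c (p + 1) z + ee T d V c p z)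
      = ee T d V c 0 z + ee T d V c m z := by
  induction m with
  | zero => rw [Finset.sum_range_zero]; exact (two_self _).symm
  | succ m ih =>
    rw [Finset.sum_range_succ, ih]
    calc ee T d V c 0 z + ee T d V c m z + (ee T d V c (m + 1) z + ee T d V c m z)
        = ee T d V c 0 z + ee T d V c (m + 1) z + (ee T d V c m z + ee T d V c m z) := by abel
      _ = _ := by rw [two_self, add_zero]

end AscAux

open AscAux in
theorem p_asc : T_asc := by
  classical
  intro G S T hT M n d Q col V U hU hcol c hc hd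
  -- the zigzag stops
  have hstop : ∀ z, ee T d V c (d + 1) z = 0 := by
    intro z
    have h1 := bd_kapF hU (le_refl (d + 1)) (sup_ee (T := T) (d := d) V U n c hc (d + 1))
      (bd_ee V U n hU c hc hd (d + 1) (le_refl _)) z
    have h2 : kapF T d V (ee T d V c (d + 1)) z = 0 := by
      by_contra h2
      obtain ⟨τ, hτ⟩ := Finsupp.ne_iff.1 h2
      obtain ⟨h3, _, _, h6⟩ := kapF_sup (sup_ee (T := T) (d := d) V U n c hc (d + 1)) hτ
      have h7 : (Finset.univ : Finset (Fin (d + 1))).card < τ.card := by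
        rw [Finset.card_univ, Fintype.card_fin, h3]; omega
      obtain ⟨q, hq, q', hq', hne, hcc⟩ := Finset.exists_ne_map_eq_of_card_lt_of_maps_to h7
        (f := col) (fun a _ => Finset.mem_univ _)
      apply hne
      apply hcol q q' (pos M z) hcc
      · exact Th_mono (by omega) (le_refl _) (h6 q hq)
      · exact Th_mono (by omega) (le_refl _) (h6 q' hq')
    rw [h2, map_zero] at h1
    exact h1.symm
  refine ⟨∑ p ∈ Finset.range (d + 1), kapF T d V (ee T d V c p), ?_, ?_⟩
  · intro z τ h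
    have h0 : ∑ p ∈ Finset.range (d + 1), kapF T d V (ee T d V c p) z τ ≠ 0 := by
      intro h0
      apply h
      rw [Finset.sum_apply, Finsupp.finsetSum_apply]
      exact h0
    obtain ⟨p, hp, h1⟩ := Finset.exists_ne_zero_of_sum_ne_zero h0
    rw [Finset.mem_range] at hp
    obtain ⟨h2, h3, h4, h5⟩ := kapF_sup (sup_ee (T := T) (d := d) V U n c hc p) h1
    refine ⟨by omega, by omega, Th_mono (by omega) (le_refl _) h4, ?_⟩
    intro q hq
    exact Th_mono (by omega) (le_refl _) (h5 q hq)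
  · intro z
    rw [map_sum, Finset.sum_apply, Finset.sum_apply, map_sum, ← Finset.sum_add_distrib]
    have h1 : ∀ p ∈ Finset.range (d + 1), dl T (Ch Q) M (kapF T d V (ee T d V c p)) z
        + bd Q (kapF T d V (ee T d V c p) z) = ee T d V c (p + 1) z + ee T d V c p z := by
      intro p hp
      rw [Finset.mem_range] at hp
      rw [bd_kapF hU (by omega) (sup_ee (T := T) (d := d) V U n c hc p)
        (bd_ee V U n hU c hc hd p (by omega)) z]
      rfl
    rw [Finset.sum_congr rfl h1, telescope, hstop, add_zero]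
    rfl

end Pool.Agent.FDC
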