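import Mathlib

set_option autoImplicit false

/-!
# Cubical cochains with controlled supports on powers of a graph

`K` is the graph with vertex set `G` and one edge from `x` to `T x s` for every `x : G`, `s : S`.
`Cell G S M` is the set of cells of the cube complex `K ^ M`; a cochain with coefficients in an
abelian group `A` of characteristic two is a function `Cell G S M → A`.
-/

namespace Pool.Agent.FDC

/-- Cells of `K ^ M`: in every coordinate a vertex `(x, none)` or an edge `(x, some s)`. -/
def Cell (G S : Type) : ℕ → Type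
  | 0 => Unit
  | M + 1 => Cell G S M × (G × Option S)

/-- Vertices of `K ^ M`. -/
def Pos (G : Type) : ℕ → Type
  | 0 => Unit
  | M + 1 => Pos G M × G

/-- the base vertex of a cell -/
def pos {G S : Type} : (M : ℕ) → Cell G S M → Pos G M
  | 0, _ => ()
  | M + 1, z => (pos M z.1, z.2.1)

/-- the dimension of a cell -/
def deg {G S : Type} : (M : ℕ) → Cell G S M → ℕ
  | 0, _ => 0
  | M + 1, z => deg M z.1 + (if z.2.2.isSome then 1 else 0)

section

set_option linter.unusedSectionVars false

variable {G S : Type} {A B : Type} [AddCommGroup A] [AddCommGroup B]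

/-- cell of `K ^ (M+1)` -/
def mk {M : ℕ} (z : Cell G S M) (x : G) (o : Option S) : Cell G S (M + 1) := (z, (x, o))

/-- the components of a cochain in the direction of the last factor -/
def pt {M : ℕ} (c : Cell G S (M + 1) → A) (x : G) (o : Option S) : Cell G S M → A :=
  fun z => c (mk z x o)

/-- a cochain of `K ^ (M+1)` from its components -/
def asm {M : ℕ} (v : G → Cell G S M → A) (e : G → S → Cell G S M → A) : Cell G S (M + 1) → A :=
  fun z => match z.2.2 with
    | none => v z.2.1 z.1
    | some s => e z.2.1 s z.1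

/-- The coboundary. -/
def dl (T : G → S → G) (A : Type) [AddCommGroup A] :
    (M : ℕ) → ((Cell G S M → A) →+ (Cell G S M → A))
  | 0 => 0
  | M + 1 =>
    { toFun := fun c => asm (fun x => dl T A M (pt c x none))
        (fun x s => dl T A M (pt c x (some s)) + (pt c x none + pt c (T x s) none))
      map_zero' := by
        funext z
        obtain ⟨z, x, o⟩ := z
        have h : ∀ y o', pt (0 : Cell G S (M + 1) → A) y o' = 0 := fun _ _ => rfl
        cases o with
        | none =>
          change dl T A M (pt 0 x none) z = 0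
          rw [h, map_zero]; rfl
        | some s =>
          change (dl T A M (pt 0 x (some s)) +
            (pt (0 : Cell G S (M + 1) → A) x none +
              pt (0 : Cell G S (M + 1) → A) (T x s) none) : Cell G S M → A) z = 0
          rw [h, h, h, map_zero, add_zero, add_zero]; rfl
      map_add' := by
        intro c c'
        funext z
        obtain ⟨z, x, o⟩ := z
        have h : ∀ y o', pt (c + c') y o' = pt c y o' + pt c' y o' := fun _ _ => rfl
        cases o with
        | none =>
          change dl T A M (pt (c + c') x none) z =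
            dl T A M (pt c x none) z + dl T A M (pt c' x none) z
          rw [h, map_add]; rfl
        | some s =>
          change (dl T A M (pt (c + c') x (some s)) +
              (pt (c + c') x none + pt (c + c') (T x s) none)) z =
            (dl T A M (pt c x (some s)) + (pt c x none + pt c (T x s) none)) z +
            (dl T A M (pt c' x (some s)) + (pt c' x none + pt c' (T x s) none)) z
          rw [h, h, h, map_add]
          simp only [Pi.add_apply]
          abel }

theorem cell_cases {M : ℕ} {P : Cell G S (M + 1) → Prop}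
    (h : ∀ z x o, P (mk z x o)) : ∀ z, P z := fun z => h z.1 z.2.1 z.2.2

theorem coch_ext {M : ℕ} {c c' : Cell G S (M + 1) → A}
    (h0 : ∀ x, pt c x none = pt c' x none) (h1 : ∀ x s, pt c x (some s) = pt c' x (some s)) :
    c = c' := by
  funext z
  obtain ⟨z, x, o⟩ := z
  cases o with
  | none => exact congrFun (h0 x) z
  | some s => exact congrFun (h1 x s) z

@[simp] theorem pt_asm_none {M : ℕ} (v : G → Cell G S M → A) (e : G → S → Cell G S M → A) (x : G) :
    pt (asm v e) x none = v x := rfl
@[simp] theorem pt_asm_some {M : ℕ} (v : G → Cell G S M → A) (e : G → S → Cell G S M → A) (x : G)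
    (s : S) : pt (asm v e) x (some s) = e x s := rfl
@[simp] theorem pt_add {M : ℕ} (c c' : Cell G S (M + 1) → A) (x : G) (o : Option S) :
    pt (c + c') x o = pt c x o + pt c' x o := rfl
@[simp] theorem pt_zero {M : ℕ} (x : G) (o : Option S) :
    pt (0 : Cell G S (M + 1) → A) x o = 0 := rfl

variable (T : G → S → G)

@[simp] theorem pt_dl_none {M : ℕ} (c : Cell G S (M + 1) → A) (x : G) :
    pt (dl T A (M + 1) c) x none = dl T A M (pt c x none) := rfl
@[simp] theorem pt_dl_some {M : ℕ} (c : Cell G S (M + 1) → A) (x : G) (s : S) :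
    pt (dl T A (M + 1) c) x (some s) =
      dl T A M (pt c x (some s)) + (pt c x none + pt c (T x s) none) := rfl
@[simp] theorem dl_zero_apply (c : Cell G S 0 → A) : dl T A 0 c = 0 := rfl

/-- `A` has characteristic two. -/
theorem two_self [Module (ZMod 2) A] (a : A) : a + a = 0 := by
  have h : ((2 : ℕ) : ZMod 2) • a = 0 := by
    have : ((2 : ℕ) : ZMod 2) = 0 := by decide
    rw [this, zero_smul]
  rwa [Nat.cast_smul_eq_nsmul, two_nsmul] at h

theorem dl_dl [Module (ZMod 2) A] (M : ℕ) (c : Cell G S M → A) :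
    dl T A M (dl T A M c) = 0 := by
  induction M with
  | zero => rfl
  | succ M ih =>
    apply coch_ext
    · intro x
      rw [pt_dl_none, pt_dl_none, ih]; rfl
    · intro x s
      rw [pt_dl_some, pt_dl_some, pt_dl_none, pt_dl_none, map_add, map_add, ih, zero_add, pt_zero]
      exact two_self _

/-- The coboundary commutes with homomorphisms of coefficients. -/
theorem dl_comp (φ : A →+ B) (M : ℕ) (c : Cell G S M → A) :
    dl T B M (fun z => φ (c z)) = fun z => φ (dl T A M c z) := by
  induction M with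
  | zero => funext z; exact (map_zero φ).symm
  | succ M ih =>
    apply coch_ext
    · intro x
      rw [pt_dl_none]
      exact ih (pt c x none)
    · intro x s
      rw [pt_dl_some]
      have h1 := ih (pt c x (some s))
      funext z
      have h2 := congrFun h1 z
      simp only [Pi.add_apply]
      change dl T B M (fun z => φ (pt c x (some s) z)) z + _ = _
      rw [h2]
      change _ + (φ (pt c x none z) + φ (pt c (T x s) none z)) =
        φ ((dl T A M (pt c x (some s)) + (pt c x none + pt c (T x s) none)) z)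
      simp only [Pi.add_apply, map_add]

/-! ### Nearness -/

/-- `y` is reached from `x` by a path of length at most `t`. -/
def Nr (t : ℕ) (x y : G) : Prop := ∃ l : List S, l.length ≤ t ∧ l.foldl T x = y

/-- nearness in `K ^ M` (sup metric) -/
def NrP (t : ℕ) : (M : ℕ) → Pos G M → Pos G M → Prop
  | 0, _, _ => True
  | M + 1, x, y => NrP t M x.1 y.1 ∧ Nr T t x.2 y.2

/-- Assumptions on the graph: edges can be reversed, it is connected, and from every point one
can leave every ball by a path of uniformly bounded length. -/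
structure Good : Prop where
  sym : ∀ x s, ∃ s', T (T x s) s' = x
  con : ∀ x y, ∃ t, Nr T t x y
  unb : ∀ D, ∃ R, ∀ x, ∃ y, Nr T R x y ∧ ¬ Nr T D x y

variable {T}

theorem Nr.refl (t : ℕ) (x : G) : Nr T t x x := ⟨[], by simp, rfl⟩

theorem Nr.mono {t t' : ℕ} {x y : G} (h : Nr T t x y) (ht : t ≤ t') : Nr T t' x y := by
  obtain ⟨l, hl, e⟩ := h
  exact ⟨l, hl.trans ht, e⟩

theorem Nr.trans {t t' : ℕ} {x y z : G} (h : Nr T t x y) (h' : Nr T t' y z) :
    Nr T (t + t') x z := by
  obtain ⟨l, hl, rfl⟩ := h
  obtain ⟨l', hl', rfl⟩ := h'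
  exact ⟨l ++ l', by rw [List.length_append]; omega, by rw [List.foldl_append]⟩

theorem Nr.step (x : G) (s : S) : Nr T 1 x (T x s) := ⟨[s], le_rfl, rfl⟩

theorem Nr.symm (hT : Good T) {t : ℕ} {x y : G} (h : Nr T t x y) : Nr T t y x := by
  obtain ⟨l, hl, rfl⟩ := h
  induction l generalizing t x with
  | nil => exact Nr.refl t x
  | cons s l ih =>
    have hl' : l.length ≤ t - 1 := by simp only [List.length_cons] at hl; omega
    have ht : 1 ≤ t := by simp only [List.length_cons] at hl; omega
    obtain ⟨s', hs'⟩ := hT.sym x s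
    have h1 := ih (t := t - 1) (x := T x s) hl'
    have h2 : Nr T 1 (T x s) x := ⟨[s'], le_rfl, hs'⟩
    have h3 := h1.trans h2
    rw [List.foldl_cons]
    exact h3.mono (by omega)

theorem NrP.refl (t : ℕ) : ∀ (M : ℕ) (x : Pos G M), NrP T t M x x
  | 0, _ => trivial
  | M + 1, x => ⟨NrP.refl t M x.1, Nr.refl t x.2⟩

theorem NrP.mono {t t' : ℕ} (ht : t ≤ t') : ∀ {M : ℕ} {x y : Pos G M}, NrP T t M x y →
    NrP T t' M x y
  | 0, _, _, _ => trivial
  | _ + 1, _, _, h => ⟨NrP.mono ht h.1, h.2.mono ht⟩

theorem NrP.trans {t t' : ℕ} : ∀ {M : ℕ} {x y z : Pos G M}, NrP T t M x y → NrP T t' M y z →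
    NrP T (t + t') M x z
  | 0, _, _, _, _, _ => trivial
  | _ + 1, _, _, _, h, h' => ⟨NrP.trans h.1 h'.1, h.2.trans h'.2⟩

theorem NrP.symm (hT : Good T) {t : ℕ} : ∀ {M : ℕ} {x y : Pos G M}, NrP T t M x y →
    NrP T t M y x
  | 0, _, _, _ => trivial
  | _ + 1, _, _, h => ⟨NrP.symm hT h.1, h.2.symm hT⟩

/-- bounded geometry -/
theorem Nr.finite [Finite S] (t : ℕ) (x : G) : {y | Nr T t x y}.Finite := by
  have h : {l : List S | l.length ≤ t}.Finite := List.finite_length_le S t
  apply (h.image (fun l => l.foldl T x)).subset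
  rintro y ⟨l, hl, rfl⟩
  exact ⟨l, hl, rfl⟩

theorem NrP.finite [Finite S] (t : ℕ) : ∀ (M : ℕ) (x : Pos G M), {y | NrP T t M x y}.Finite
  | 0, x => (Set.finite_univ (α := Unit)).subset (Set.subset_univ _)
  | M + 1, x => by
    apply ((NrP.finite t M x.1).prod (Nr.finite (T := T) t x.2)).subset
    rintro ⟨y, y'⟩ h
    exact ⟨h.1, h.2⟩

/-! ### Thickenings and supports -/

/-- the `t`-neighbourhood of `U` -/
def Th (T : G → S → G) (t : ℕ) {M : ℕ} (U : Set (Pos G M)) : Set (Pos G M) :=
  {x | ∃ y ∈ U, NrP T t M x y}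

theorem subset_Th (t : ℕ) {M : ℕ} (U : Set (Pos G M)) : U ⊆ Th T t U :=
  fun x hx => ⟨x, hx, NrP.refl t M x⟩

theorem Th_mono {t t' : ℕ} (ht : t ≤ t') {M : ℕ} {U U' : Set (Pos G M)} (h : U ⊆ U') :
    Th T t U ⊆ Th T t' U' := by
  rintro x ⟨y, hy, hxy⟩
  exact ⟨y, h hy, hxy.mono ht⟩

theorem Th_Th {t t' : ℕ} {M : ℕ} (U : Set (Pos G M)) : Th T t (Th T t' U) ⊆ Th T (t + t') U := by
  rintro x ⟨y, ⟨z, hz, hyz⟩, hxy⟩
  exact ⟨z, hz, hxy.trans hyz⟩

/-- Cochains supported in `U` of dimension less than `n`. -/
def CS (A : Type) [AddCommGroup A] (S : Type) {G : Type} {M : ℕ} (U : Set (Pos G M)) (n : ℕ) :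
    AddSubgroup (Cell G S M → A) where
  carrier := {c | ∀ z, c z ≠ 0 → pos M z ∈ U ∧ deg M z < n}
  zero_mem' := fun z h => absurd rfl h
  add_mem' := by
    intro c c' hc hc' z hz
    by_cases h : c z = 0
    · apply hc' z
      intro h'
      exact hz (by rw [Pi.add_apply, h, h', add_zero])
    · exact hc z h
  neg_mem' := by
    intro c hc z hz
    apply hc z
    intro h
    exact hz (by rw [Pi.neg_apply, h, neg_zero])

theorem mem_CS {M : ℕ} {U : Set (Pos G M)} {n : ℕ} {c : Cell G S M → A} :
    c ∈ CS A S U n ↔ ∀ z, c z ≠ 0 → pos M z ∈ U ∧ deg M z < n := Iff.rfl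

theorem CS_mono {M : ℕ} {U V : Set (Pos G M)} {n m : ℕ} (hU : U ⊆ V) (hn : n ≤ m) :
    CS A S U n ≤ CS A S V m := fun _ hc z hz => ⟨hU (hc z hz).1, (hc z hz).2.trans_le hn⟩

/-- the slice of a set at `x` -/
def Sl {M : ℕ} (U : Set (Pos G (M + 1))) (x : G) : Set (Pos G M) := {a | ((a, x) : Pos G M × G) ∈ U}

theorem pt_none_mem {M : ℕ} {U : Set (Pos G (M + 1))} {n : ℕ} {c : Cell G S (M + 1) → A}
    (hc : c ∈ CS A S U n) (x : G) : pt c x none ∈ CS A S (Sl U x) n := by
  intro z hz
  have h := hc (mk z x none) hz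
  exact ⟨h.1, by simpa [deg, mk] using h.2⟩

theorem pt_some_mem {M : ℕ} {U : Set (Pos G (M + 1))} {n : ℕ} {c : Cell G S (M + 1) → A}
    (hc : c ∈ CS A S U n) (x : G) (s : S) : pt c x (some s) ∈ CS A S (Sl U x) (n - 1) := by
  intro z hz
  have h := hc (mk z x (some s)) hz
  refine ⟨h.1, ?_⟩
  have h2 : deg M z + 1 < n := by simpa [deg, mk] using h.2
  omega

theorem mem_of_parts {M : ℕ} {U : Set (Pos G (M + 1))} {n : ℕ} {c : Cell G S (M + 1) → A}
    (h0 : ∀ x, pt c x none ∈ CS A S (Sl U x) n)
    (h1 : ∀ x s, pt c x (some s) ∈ CS A S (Sl U x) (n - 1)) : c ∈ CS A S U n := by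
  intro z
  obtain ⟨z, x, o⟩ := z
  intro hz
  cases o with
  | none =>
    have h := h0 x z hz
    exact ⟨h.1, by simpa [deg] using h.2⟩
  | some s =>
    have h := h1 x s z hz
    refine ⟨h.1, ?_⟩
    have h2 : deg M z < n - 1 := h.2
    have h3 : deg M z + 1 < n := by omega
    simpa [deg] using h3

/-- Locality of the coboundary. -/
theorem dl_local (M : ℕ) (c : Cell G S M → A) (z : Cell G S M) (hz : dl T A M c z ≠ 0) :
    ∃ w, c w ≠ 0 ∧ NrP T 1 M (pos M z) (pos M w) ∧ deg M z ≤ deg M w + 1 := by
  induction M with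
  | zero => exact absurd rfl hz
  | succ M ih =>
    obtain ⟨z, x, o⟩ := z
    cases o with
    | none =>
      have hz' : dl T A M (pt c x none) z ≠ 0 := hz
      obtain ⟨w, hw, h1, h2⟩ := ih _ _ hz'
      exact ⟨mk w x none, hw, ⟨h1, Nr.refl 1 x⟩, by simpa [deg, mk] using h2⟩
    | some s =>
      by_cases h0 : dl T A M (pt c x (some s)) z = 0
      · by_cases h1 : pt c x none z = 0
        · have h2 : pt c (T x s) none z ≠ 0 := by
            intro h2
            apply hz
            change dl T A M (pt c x (some s)) z + (pt c x none z + pt c (T x s) none z) = 0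
            rw [h0, h1, h2]; simp
          exact ⟨mk z (T x s) none, h2, ⟨NrP.refl 1 M _, Nr.step x s⟩, by simp [deg, mk]⟩
        · exact ⟨mk z x none, h1, ⟨NrP.refl 1 M _, Nr.refl 1 x⟩, by simp [deg, mk]⟩
      · obtain ⟨w, hw, h1, h2⟩ := ih _ _ h0
        exact ⟨mk w x (some s), hw, ⟨h1, Nr.refl 1 x⟩, by simpa [deg, mk] using h2⟩

theorem dl_mem {M : ℕ} {U : Set (Pos G M)} {n : ℕ} {c : Cell G S M → A}
    (hc : c ∈ CS A S U n) : dl T A M c ∈ CS A S (Th T 1 U) (n + 1) := by
  intro z hz
  obtain ⟨w, hw, h1, h2⟩ := dl_local (T := T) M c z hz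
  exact ⟨⟨pos M w, (hc w hw).1, h1⟩, by have := (hc w hw).2; omega⟩

/-! ### Path sums -/

/-- sum of the edge components along the path `l` starting at `x` -/
def psum (T : G → S → G) (e : G → S → A) : G → List S → A
  | _, [] => 0
  | x, s :: l => e x s + psum T e (T x s) l

@[simp] theorem psum_nil (e : G → S → A) (x : G) : psum T e x [] = 0 := rfl
@[simp] theorem psum_cons (e : G → S → A) (x : G) (s : S) (l : List S) :
    psum T e x (s :: l) = e x s + psum T e (T x s) l := rfl

theorem psum_mem (H : AddSubgroup A) (e : G → S → A) (x : G) (l : List S)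
    (h : ∀ y s, Nr T l.length x y → e y s ∈ H) : psum T e x l ∈ H := by
  induction l generalizing x with
  | nil => exact H.zero_mem
  | cons s l ih =>
    refine H.add_mem (h x s (Nr.refl _ x)) (ih (T x s) fun y s' hy => h y s' ?_)
    have := (Nr.step x s).trans hy
    rw [List.length_cons]
    exact this.mono (by omega)

theorem psum_comp (φ : A →+ B) (e : G → S → A) (x : G) (l : List S) :
    φ (psum T e x l) = psum T (fun y s => φ (e y s)) x l := by
  induction l generalizing x with
  | nil => exact map_zero φ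
  | cons s l ih => simp [ih]

/-- If `φ (e x s) = v x + v (T x s) + w x s` then the same holds for path sums. -/
theorem psum_tel [Module (ZMod 2) B] (φ : A →+ B) (e : G → S → A) (v : G → B) (w : G → S → B)
    (h : ∀ x s, φ (e x s) = v x + v (T x s) + w x s) (x : G) (l : List S) :
    φ (psum T e x l) = v x + v (l.foldl T x) + psum T w x l := by
  induction l generalizing x with
  | nil => simp [two_self]
  | cons s l ih =>
    rw [psum_cons, map_add, h, ih, psum_cons, List.foldl_cons]
    have h2 := two_self (v (T x s))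
    calc v x + v (T x s) + w x s + (v (T x s) + v (List.foldl T (T x s) l) + psum T w (T x s) l)
        = v x + v (List.foldl T (T x s) l) + (w x s + psum T w (T x s) l)
          + (v (T x s) + v (T x s)) := by abel
      _ = _ := by rw [h2, add_zero]

end

end Pool.Agent.FDC
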