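import Pool.Agent.FDC.Targets

set_option autoImplicit false

/-!
# Vanishing of cocycles with bounded supports
-/

namespace Pool.Agent.FDC

variable {G S : Type} {T : G → S → G}

theorem pt_dl_eq {M : ℕ} {c : Cell G S (M + 1) → ZMod 2} (h : dl T (ZMod 2) (M + 1) c = 0) :
    (∀ x, dl T (ZMod 2) M (pt c x none) = 0) ∧
    (∀ x s, dl T (ZMod 2) M (pt c x (some s)) = pt c x none + pt c (T x s) none) := by
  constructor
  · intro x
    rw [← pt_dl_none, h]; rfl
  · intro x s
    have h1 : pt (dl T (ZMod 2) (M + 1) c) x (some s) = 0 := by rw [h]; rfl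
    rw [pt_dl_some] at h1
    have h2 := two_self (pt c x none + pt c (T x s) none)
    calc dl T (ZMod 2) M (pt c x (some s))
        = dl T (ZMod 2) M (pt c x (some s)) + (pt c x none + pt c (T x s) none)
          + (pt c x none + pt c (T x s) none) := by rw [add_assoc, h2, add_zero]
      _ = pt c x none + pt c (T x s) none := by rw [h1, zero_add]

theorem p_bdd : T_bdd := by
  classical
  intro G S T hT M
  induction M with
  | zero =>
    intro n hn D
    obtain rfl : n = 0 := by omega
    refine ⟨0, fun U _ c hc _ => ⟨0, AddSubgroup.zero_mem _, ?_⟩⟩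
    rw [map_zero]
    funext z
    by_contra hz
    exact absurd (hc z (Ne.symm hz)).2 (Nat.not_lt_zero _)
  | succ M ih =>
    intro n hn D
    obtain ⟨R, hR⟩ := hT.unb D
    obtain ⟨s', hs'⟩ := ih (n - 1) (by omega) D
    refine ⟨s' + (R + 1) + (D + 1), ?_⟩
    intro U hU c hc hcl
    obtain ⟨hv, he⟩ := pt_dl_eq hcl
    -- the projection of the support
    let B : Set G := {x | ∃ a, ((a, x) : Pos G M × G) ∈ U}
    let UA : Set (Pos G M) := {a | ∃ x, ((a, x) : Pos G M × G) ∈ U}
    have hvB : ∀ x, x ∉ B → ∀ o, pt c x o = 0 := by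
      intro x hx o
      funext z
      by_contra hz
      exact hx ⟨pos M z, (hc (mk z x o) hz).1⟩
    have hl : ∀ x, ∃ l : List S, l.length ≤ R ∧ l.foldl T x ∉ B ∧ (x ∉ B → l = []) := by
      intro x
      by_cases hx : x ∈ B
      · obtain ⟨y, ⟨l, hl, hly⟩, hy⟩ := hR x
        refine ⟨l, hl, ?_, fun h => absurd hx h⟩
        rintro ⟨a', ha'⟩
        obtain ⟨a, ha⟩ := hx
        apply hy
        rw [← hly]
        exact (hU _ ha _ ha').2
      · exact ⟨[], Nat.zero_le _, hx, fun _ => rfl⟩
    choose l hl1 hl2 hl3 using hl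
    let b : G → Cell G S M → ZMod 2 := fun x => psum T (fun y s => pt c y (some s)) x (l x)
    have hb : ∀ x, dl T (ZMod 2) M (b x) = pt c x none := by
      intro x
      have h1 := psum_tel (T := T) (dl T (ZMod 2) M) (fun y s => pt c y (some s))
        (fun y => pt c y none) (fun _ _ => 0) (fun y s => by rw [he, add_zero]) x (l x)
      have h2 : psum T (fun (_ : G) (_ : S) => (0 : Cell G S M → ZMod 2)) x (l x) = 0 := by
        have := psum_mem (T := T) (⊥ : AddSubgroup (Cell G S M → ZMod 2)) (fun _ _ => 0) x (l x)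
          (fun _ _ _ => AddSubgroup.zero_mem _)
        exact AddSubgroup.mem_bot.1 this
      change dl T (ZMod 2) M (psum T (fun y s => pt c y (some s)) x (l x)) = _
      rw [h1, hvB _ (hl2 x) none, h2, add_zero, add_zero]
    have hbB : ∀ x, x ∉ B → b x = 0 := by
      intro x hx
      change psum T (fun y s => pt c y (some s)) x (l x) = 0
      rw [hl3 x hx]; rfl
    have hbmem : ∀ x, b x ∈ CS (ZMod 2) S (Sl (Th T R U) x) (n - 1) := by
      intro x
      apply psum_mem
      intro y s hy
      refine CS_mono ?_ le_rfl (pt_some_mem hc y s)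
      intro a ha
      exact ⟨(a, y), ha, NrP.refl _ M a, hy.mono (hl1 x)⟩
    have hbUA : ∀ x, b x ∈ CS (ZMod 2) S UA (n - 1) := by
      intro x
      apply psum_mem
      intro y s _
      exact CS_mono (fun a ha => (⟨y, ha⟩ : a ∈ UA)) le_rfl (pt_some_mem hc y s)
    -- the loops
    have hloop : ∀ x s, ∃ β : Cell G S M → ZMod 2,
        β ∈ CS (ZMod 2) S (Sl (Th T (s' + (R + 1) + (D + 1)) U) x) (n - 1 - 1) ∧
        dl T (ZMod 2) M β = b x + b (T x s) + pt c x (some s) := by
      intro x s
      by_cases hx : x ∈ B ∨ T x s ∈ B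
      · obtain ⟨β, hβ, hβ'⟩ := hs' UA (by
          rintro a ⟨y, hy⟩ a' ⟨y', hy'⟩
          exact (hU _ hy _ hy').1) (b x + b (T x s) + pt c x (some s)) (by
          refine AddSubgroup.add_mem _ (AddSubgroup.add_mem _ (hbUA x) (hbUA _)) ?_
          exact CS_mono (fun a ha => (⟨x, ha⟩ : a ∈ UA)) le_rfl (pt_some_mem hc x s)) (by
          rw [map_add, map_add, hb, hb, he]
          exact two_self _)
        refine ⟨β, ?_, hβ'⟩
        intro z hz
        obtain ⟨⟨a, ⟨x', hx'⟩, ha⟩, hdeg⟩ := hβ z hz
        refine ⟨⟨(a, x'), hx', ha.mono (by omega), ?_⟩, hdeg⟩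
        rcases hx with ⟨a', ha'⟩ | ⟨a', ha'⟩
        · exact ((hU _ ha' _ hx').2).mono (by omega)
        · exact ((Nr.step x s).trans (hU _ ha' _ hx').2).mono (by omega)
      · rw [not_or] at hx
        refine ⟨0, AddSubgroup.zero_mem _, ?_⟩
        rw [map_zero, hbB x hx.1, hbB _ hx.2, hvB x hx.1, add_zero, add_zero]
    choose β hβ1 hβ2 using hloop
    refine ⟨asm b β, ?_, ?_⟩
    · apply mem_of_parts
      · intro x
        rw [pt_asm_none]
        refine CS_mono ?_ le_rfl (hbmem x)
        intro a ha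
        exact Th_mono (by omega) le_rfl ha
      · intro x s
        rw [pt_asm_some]
        exact hβ1 x s
    · apply coch_ext
      · intro x
        rw [pt_dl_none, pt_asm_none, hb]
      · intro x s
        rw [pt_dl_some, pt_asm_none, pt_asm_none, pt_asm_some, hβ2]
        have h := two_self (b x + b (T x s))
        calc b x + b (T x s) + pt c x (some s) + (b x + b (T x s))
            = pt c x (some s) + ((b x + b (T x s)) + (b x + b (T x s))) := by abel
          _ = _ := by rw [h, add_zero]

end Pool.Agent.FDC
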