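import Pool.Agent.FDC.Basic

set_option autoImplicit false

/-!
# Simplicial chains modulo two on a vertex set
-/

namespace Pool.Agent.FDC

open Classical

variable {Q : Type}

/-- chains: finite formal sums of finite sets -/
abbrev Ch (Q : Type) : Type := Finset Q →₀ ZMod 2

/-- the simplicial boundary -/
noncomputable def bd (Q : Type) : Ch Q →+ Ch Q :=
  Finsupp.liftAddHom fun τ => ∑ q ∈ τ, Finsupp.singleAddHom (τ.erase q)

/-- the cone with apex `q` -/
noncomputable def cone (q : Q) : Ch Q →+ Ch Q :=
  Finsupp.liftAddHom fun τ => if q ∈ τ then 0 else Finsupp.singleAddHom (insert q τ)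

theorem bd_single (τ : Finset Q) (r : ZMod 2) :
    bd Q (Finsupp.single τ r) = ∑ q ∈ τ, Finsupp.single (τ.erase q) r := by
  simp [bd]

theorem cone_single (q : Q) (τ : Finset Q) (r : ZMod 2) :
    cone q (Finsupp.single τ r) = if q ∈ τ then 0 else Finsupp.single (insert q τ) r := by
  unfold cone
  rw [Finsupp.liftAddHom_apply_single]
  split_ifs <;> rfl

theorem bd_bd (v : Ch Q) : bd Q (bd Q v) = 0 := by
  induction v using Finsupp.induction_linear with
  | zero => simp
  | add f g hf hg => rw [map_add, map_add, hf, hg, add_zero]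
  | single τ r =>
    rw [bd_single, map_sum]
    simp only [bd_single]
    rw [Finset.sum_sigma' τ (fun q => τ.erase q)
      (fun q q' => Finsupp.single ((τ.erase q).erase q') r)]
    apply Finset.sum_involution (fun (x : (_ : Q) × Q) _ => (⟨x.2, x.1⟩ : (_ : Q) × Q))
    · rintro ⟨q, q'⟩ h
      simp only
      rw [Finset.erase_right_comm]
      exact two_self _
    · rintro ⟨q, q'⟩ h _ h'
      simp only [Finset.mem_sigma, Finset.mem_erase] at h
      simp only [Sigma.mk.injEq, heq_eq_eq] at h'
      exact h.2.1 h'.1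
    · rintro ⟨q, q'⟩ h
      simp only [Finset.mem_sigma, Finset.mem_erase] at h ⊢
      exact ⟨h.2.2, h.2.1.symm, h.1⟩
    · rintro ⟨q, q'⟩ h
      rfl

theorem bd_cone (q : Q) (v : Ch Q) : bd Q (cone q v) + cone q (bd Q v) = v := by
  induction v using Finsupp.induction_linear with
  | zero => simp
  | add f g hf hg =>
    rw [map_add, map_add, map_add, map_add]
    calc bd Q (cone q f) + bd Q (cone q g) + (cone q (bd Q f) + cone q (bd Q g))
        = (bd Q (cone q f) + cone q (bd Q f)) + (bd Q (cone q g) + cone q (bd Q g)) := by abel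
      _ = f + g := by rw [hf, hg]
  | single τ r =>
    rw [cone_single, bd_single, map_sum]
    simp only [cone_single]
    split_ifs with hq
    · rw [map_zero, zero_add, Finset.sum_eq_single q]
      · rw [if_neg (Finset.notMem_erase q τ), Finset.insert_erase hq]
      · intro q' hq' hne
        rw [if_pos]
        exact Finset.mem_erase.2 ⟨hne.symm, hq⟩
      · intro h; exact absurd hq h
    · rw [bd_single, Finset.sum_insert hq, Finset.erase_insert hq]
      have h : ∑ q' ∈ τ, (if q ∈ τ.erase q' then (0 : Ch Q) else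
          Finsupp.single (insert q (τ.erase q')) r) =
          ∑ q' ∈ τ, Finsupp.single ((insert q τ).erase q') r := by
        apply Finset.sum_congr rfl
        intro q' hq'
        rw [if_neg (fun h => hq (Finset.mem_of_mem_erase h)),
          Finset.erase_insert_of_ne (fun h => hq (by rw [h]; exact hq'))]
      rw [h, add_assoc, two_self, add_zero]

/-- If the chain is a cycle, the cone bounds it. -/
theorem bd_cone_of_cycle {q : Q} {v : Ch Q} (h : bd Q v = 0) : bd Q (cone q v) = v := by
  have := bd_cone q v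
  rwa [h, map_zero, add_zero] at this

theorem bd_support {v : Ch Q} {σ : Finset Q} (h : bd Q v σ ≠ 0) :
    ∃ q, q ∉ σ ∧ v (insert q σ) ≠ 0 := by
  have hv : bd Q v = v.sum fun τ r => ∑ q ∈ τ, Finsupp.single (τ.erase q) r := by
    simp only [bd, Finsupp.liftAddHom_apply]
    congr 1
    funext τ r
    rw [AddMonoidHom.finsetSum_apply]
    rfl
  rw [hv, Finsupp.sum, Finset.sum_apply'] at h
  obtain ⟨τ, hτ, h1⟩ := Finset.exists_ne_zero_of_sum_ne_zero h
  rw [Finset.sum_apply'] at h1
  obtain ⟨q, hq, h2⟩ := Finset.exists_ne_zero_of_sum_ne_zero h1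
  have h3 : τ.erase q = σ := by
    by_contra h3
    exact h2 (Finsupp.single_eq_of_ne (Ne.symm h3))
  refine ⟨q, ?_, ?_⟩
  · rw [← h3]; exact Finset.notMem_erase q τ
  · rw [← h3, Finset.insert_erase hq]
    exact Finsupp.mem_support_iff.1 hτ

theorem cone_support {q : Q} {v : Ch Q} {σ : Finset Q} (h : cone q v σ ≠ 0) :
    ∃ τ, q ∉ τ ∧ σ = insert q τ ∧ v τ ≠ 0 := by
  have hv : cone q v = v.sum fun τ r => if q ∈ τ then 0 else Finsupp.single (insert q τ) r := by
    simp only [cone, Finsupp.liftAddHom_apply]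
    congr 1
    funext τ r
    split_ifs <;> rfl
  rw [hv, Finsupp.sum, Finset.sum_apply'] at h
  obtain ⟨τ, hτ, h1⟩ := Finset.exists_ne_zero_of_sum_ne_zero h
  by_cases hq : q ∈ τ
  · rw [if_pos hq] at h1
    exact absurd rfl h1
  · rw [if_neg hq] at h1
    refine ⟨τ, hq, ?_, Finsupp.mem_support_iff.1 hτ⟩
    by_contra h3
    exact h1 (Finsupp.single_eq_of_ne h3)

end Pool.Agent.FDC
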