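import Mathlib

set_option autoImplicit false

/-!
# Metric families, finite decomposition complexity, and Grigorchuk's group: definitions
-/

namespace Pool.Agent.FDC

/-! ### Metric families -/

/-- A metric space. -/
structure MSpace : Type 1 where
  /-- the points -/
  carrier : Type
  /-- the metric -/
  [str : MetricSpace carrier]

attribute [instance] MSpace.str

/-- A subset of a metric space, as a metric space. -/
def MSpace.sub (X : MSpace) (A : Set X.carrier) : MSpace := ⟨A⟩

/-- A metric family is a collection of metric spaces. -/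
abbrev Family := Set MSpace

/-- The diameters of the members are uniformly bounded. -/
def Bounded (𝒳 : Family) : Prop := ∃ D : ℝ, ∀ X ∈ 𝒳, ∀ x y : X.carrier, dist x y ≤ D

/-- The distance `inf {d(x, y) | x ∈ A, y ∈ B}` of two subsets, in `[0, ∞]`. -/
noncomputable def setDist {X : Type} [MetricSpace X] (A B : Set X) : ENNReal :=
  ⨅ x ∈ A, ⨅ y ∈ B, edist x y

/-- Distinct members of `𝒰` are at distance `> r`. -/
def RDisjoint {X : Type} [MetricSpace X] (r : ℝ) (𝒰 : Set (Set X)) : Prop :=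
  ∀ A ∈ 𝒰, ∀ B ∈ 𝒰, A ≠ B → ENNReal.ofReal r < setDist A B

/-- `𝒳` is `(r, d)`-decomposable over `ℭ`: every member `X` of `𝒳` is a union
`X = X_0 ∪ ⋯ ∪ X_d`, where `X_i` is the `r`-disjoint union of the subspaces in `𝒰 X _ i`, and the
family of all these subspaces is in `ℭ`. -/
def Decomposable (r : ℝ) (d : ℕ) (ℭ : Set Family) (𝒳 : Family) : Prop :=
  ∃ 𝒰 : ∀ X ∈ 𝒳, Fin (d + 1) → Set (Set X.carrier),
    (∀ X, ∀ h : X ∈ 𝒳, (∀ i, RDisjoint r (𝒰 X h i)) ∧ (⋃ i, ⋃₀ 𝒰 X h i) = Set.univ) ∧
    {Y | ∃ X, ∃ h : X ∈ 𝒳, ∃ i, ∃ A ∈ 𝒰 X h i, Y = X.sub A} ∈ ℭ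

/-- The collection is stable under decomposition. -/
def StableDec (ℭ : Set Family) : Prop :=
  ∀ 𝒳 : Family, (∀ r : ℝ, 0 < r → Decomposable r 1 ℭ 𝒳) → 𝒳 ∈ ℭ

/-- The collection is stable under weak decomposition. -/
def StableWeakDec (ℭ : Set Family) : Prop :=
  ∀ 𝒳 : Family, (∃ d : ℕ, 1 ≤ d ∧ ∀ r : ℝ, 0 < r → Decomposable r d ℭ 𝒳) → 𝒳 ∈ ℭ

/-- Finite decomposition complexity: membership in the smallest collection which contains all
bounded families and is stable under decomposition. -/
def HasFDC (𝒳 : Family) : Prop :=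
  ∀ ℭ : Set Family, (∀ 𝒴, Bounded 𝒴 → 𝒴 ∈ ℭ) → StableDec ℭ → 𝒳 ∈ ℭ

/-- Weak finite decomposition complexity: membership in the smallest collection which contains all
bounded families and is stable under weak decomposition. -/
def HasWeakFDC (𝒳 : Family) : Prop :=
  ∀ ℭ : Set Family, (∀ 𝒴, Bounded 𝒴 → 𝒴 ∈ ℭ) → StableWeakDec ℭ → 𝒳 ∈ ℭ

/-! ### Word metrics -/

/-- The word length: the least length of a word in the elements of `S` and their inverses with
product `g`. -/
noncomputable def wordLength {Γ : Type} [Group Γ] (S : Set Γ) (g : Γ) : ℕ :=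
  sInf {n | ∃ l : List Γ, l.length = n ∧ (∀ x ∈ l, x ∈ S ∨ x⁻¹ ∈ S) ∧ l.prod = g}

section

variable {Γ : Type} [Group Γ] {S : Set Γ}

theorem exists_word (hS : Subgroup.closure S = ⊤) (g : Γ) :
    ∃ l : List Γ, (∀ x ∈ l, x ∈ S ∨ x⁻¹ ∈ S) ∧ l.prod = g := by
  have hg : g ∈ Subgroup.closure S := by rw [hS]; trivial
  induction hg using Subgroup.closure_induction_left with
  | one => exact ⟨[], by simp, rfl⟩
  | mul_left x hx y _ ih =>
    obtain ⟨l, hl, e⟩ := ih
    refine ⟨x :: l, ?_, by rw [List.prod_cons, e]⟩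
    intro z hz
    rcases List.mem_cons.1 hz with rfl | hz
    · exact Or.inl hx
    · exact hl z hz
  | inv_mul_cancel x hx y _ ih =>
    obtain ⟨l, hl, e⟩ := ih
    refine ⟨x⁻¹ :: l, ?_, by rw [List.prod_cons, e]⟩
    intro z hz
    rcases List.mem_cons.1 hz with rfl | hz
    · right; rw [inv_inv]; exact hx
    · exact hl z hz

theorem wordLength_spec (hS : Subgroup.closure S = ⊤) (g : Γ) :
    ∃ l : List Γ, l.length = wordLength S g ∧ (∀ x ∈ l, x ∈ S ∨ x⁻¹ ∈ S) ∧ l.prod = g := by
  obtain ⟨l, hl, hg⟩ := exists_word hS g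
  exact Nat.sInf_mem (s := {n | ∃ l : List Γ, l.length = n ∧ (∀ x ∈ l, x ∈ S ∨ x⁻¹ ∈ S) ∧
    l.prod = g}) ⟨l.length, l, rfl, hl, hg⟩

theorem wordLength_le {g : Γ} {l : List Γ} (hl : ∀ x ∈ l, x ∈ S ∨ x⁻¹ ∈ S) (hg : l.prod = g) :
    wordLength S g ≤ l.length := Nat.sInf_le ⟨l, rfl, hl, hg⟩

theorem wordLength_one : wordLength S (1 : Γ) = 0 :=
  Nat.le_zero.1 (wordLength_le (l := []) (by simp) rfl)

theorem wordLength_inv_le (hS : Subgroup.closure S = ⊤) (g : Γ) :
    wordLength S g⁻¹ ≤ wordLength S g := by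
  obtain ⟨l, hl, hl', hg⟩ := wordLength_spec hS g
  have h := wordLength_le (S := S) (g := g⁻¹) (l := (l.map fun x => x⁻¹).reverse) (by
    intro x hx
    rw [List.mem_reverse, List.mem_map] at hx
    obtain ⟨y, hy, rfl⟩ := hx
    rw [inv_inv]
    exact (hl' y hy).symm) (by rw [← List.prod_inv_reverse, hg])
  rwa [List.length_reverse, List.length_map, hl] at h

theorem wordLength_inv (hS : Subgroup.closure S = ⊤) (g : Γ) :
    wordLength S g⁻¹ = wordLength S g :=
  le_antisymm (wordLength_inv_le hS g) (by simpa using wordLength_inv_le hS g⁻¹)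

theorem wordLength_mul (hS : Subgroup.closure S = ⊤) (g h : Γ) :
    wordLength S (g * h) ≤ wordLength S g + wordLength S h := by
  obtain ⟨l, hl, hl', hg⟩ := wordLength_spec hS g
  obtain ⟨m, hm, hm', hh⟩ := wordLength_spec hS h
  have h1 := wordLength_le (S := S) (g := g * h) (l := l ++ m) (by
    intro x hx
    rcases List.mem_append.1 hx with hx | hx
    · exact hl' x hx
    · exact hm' x hx) (by rw [List.prod_append, hg, hh])
  rwa [List.length_append, hl, hm] at h1

theorem eq_one_of_wordLength (hS : Subgroup.closure S = ⊤) {g : Γ} (h : wordLength S g = 0) :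
    g = 1 := by
  obtain ⟨l, hl, _, hg⟩ := wordLength_spec hS g
  rw [h, List.length_eq_zero_iff] at hl
  rw [← hg, hl, List.prod_nil]

/-- The word metric `d(g, h) = |g⁻¹ h|`. -/
@[reducible] noncomputable def wordMetric (S : Set Γ) (hS : Subgroup.closure S = ⊤) : MetricSpace Γ where
  dist g h := (wordLength S (g⁻¹ * h) : ℝ)
  dist_self g := by
    rw [inv_mul_cancel, wordLength_one, Nat.cast_zero]
  dist_comm g h := by
    rw [← wordLength_inv hS, mul_inv_rev, inv_inv]
  dist_triangle g h k := by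
    have := wordLength_mul hS (g⁻¹ * h) (h⁻¹ * k)
    rw [show g⁻¹ * h * (h⁻¹ * k) = g⁻¹ * k by group] at this
    exact_mod_cast this
  eq_of_dist_eq_zero := by
    intro g h hgh
    have h1 : wordLength S (g⁻¹ * h) = 0 := by
      have : ((wordLength S (g⁻¹ * h) : ℕ) : ℝ) = 0 := hgh
      exact_mod_cast this
    exact (inv_mul_eq_one.1 (eq_one_of_wordLength hS h1))

/-- The group with the word metric of a generating set, as a metric space. -/
noncomputable def wordSpace (S : Set Γ) (hS : Subgroup.closure S = ⊤) : MSpace :=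
  @MSpace.mk Γ (wordMetric S hS)

end

/-! ### Grigorchuk's group -/

/-- Infinite binary sequences; `false` is the letter `0` and `true` is the letter `1`. -/
abbrev BSeq : Type := ℕ → Bool

/-- the sequence `xw` -/
def cns (x : Bool) (w : BSeq) : BSeq
  | 0 => x
  | n + 1 => w n

/-- the sequence without its first letter -/
def tl (w : BSeq) : BSeq := fun n => w (n + 1)

/-- `a` flips the first letter. -/
def aSeq (w : BSeq) : BSeq
  | 0 => !(w 0)
  | n + 1 => w (n + 1)

/-- The `n`-th letters of `b(w)`, `c(w)`, `d(w)`: `b(0w) = 0a(w)`, `b(1w) = 1c(w)`, `c(0w) = 0a(w)`,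
`c(1w) = 1d(w)`, `d(0w) = 0w`, `d(1w) = 1b(w)`. -/
def bcdSeq : ℕ → BSeq → Bool × Bool × Bool
  | 0, w => (w 0, w 0, w 0)
  | n + 1, w =>
    match w 0 with
    | false => (aSeq (tl w) n, aSeq (tl w) n, tl w n)
    | true => ((bcdSeq n (tl w)).2.1, (bcdSeq n (tl w)).2.2, (bcdSeq n (tl w)).1)

/-- the action of `b` -/
def bSeq (w : BSeq) : BSeq := fun n => (bcdSeq n w).1
/-- the action of `c` -/
def cSeq (w : BSeq) : BSeq := fun n => (bcdSeq n w).2.1
/-- the action of `d` -/
def dSeq (w : BSeq) : BSeq := fun n => (bcdSeq n w).2.2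

theorem aSeq_cns (x : Bool) (w : BSeq) : aSeq (cns x w) = cns (!x) w := by
  funext n; cases n <;> rfl
theorem bSeq_false (w : BSeq) : bSeq (cns false w) = cns false (aSeq w) := by
  funext n; cases n <;> rfl
theorem bSeq_true (w : BSeq) : bSeq (cns true w) = cns true (cSeq w) := by
  funext n; cases n <;> rfl
theorem cSeq_false (w : BSeq) : cSeq (cns false w) = cns false (aSeq w) := by
  funext n; cases n <;> rfl
theorem cSeq_true (w : BSeq) : cSeq (cns true w) = cns true (dSeq w) := by
  funext n; cases n <;> rfl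
theorem dSeq_false (w : BSeq) : dSeq (cns false w) = cns false w := by
  funext n; cases n <;> rfl
theorem dSeq_true (w : BSeq) : dSeq (cns true w) = cns true (bSeq w) := by
  funext n; cases n <;> rfl

theorem eq_cns (w : BSeq) : w = cns (w 0) (tl w) := by
  funext n; cases n <;> rfl

theorem aSeq_aSeq (w : BSeq) : aSeq (aSeq w) = w := by
  rw [eq_cns w, aSeq_cns, aSeq_cns, Bool.not_not]

theorem bcd_invol (n : ℕ) : ∀ w : BSeq,
    bSeq (bSeq w) n = w n ∧ cSeq (cSeq w) n = w n ∧ dSeq (dSeq w) n = w n := by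
  induction n with
  | zero =>
    intro w
    rw [eq_cns w]
    cases w 0 <;>
      simp only [bSeq_false, bSeq_true, cSeq_false, cSeq_true, dSeq_false, dSeq_true, cns, and_self]
  | succ n ih =>
    intro w
    rw [eq_cns w]
    cases w 0
    · simp only [bSeq_false, cSeq_false, dSeq_false, cns, aSeq_aSeq, and_self]
    · simp only [bSeq_true, cSeq_true, dSeq_true, cns]
      exact ⟨(ih _).2.1, (ih _).2.2, (ih _).1⟩

/-- the generator `a` -/
def aPerm : Equiv.Perm BSeq := Function.Involutive.toPerm aSeq aSeq_aSeq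
/-- the generator `b` -/
def bPerm : Equiv.Perm BSeq :=
  Function.Involutive.toPerm bSeq fun w => funext fun n => (bcd_invol n w).1
/-- the generator `c` -/
def cPerm : Equiv.Perm BSeq :=
  Function.Involutive.toPerm cSeq fun w => funext fun n => (bcd_invol n w).2.1
/-- the generator `d` -/
def dPerm : Equiv.Perm BSeq :=
  Function.Involutive.toPerm dSeq fun w => funext fun n => (bcd_invol n w).2.2

/-- Grigorchuk's group. -/
def Grigorchuk : Subgroup (Equiv.Perm BSeq) := Subgroup.closure {aPerm, bPerm, cPerm, dPerm}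

end Pool.Agent.FDC
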