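import Pool.Agent.FDC.Targets

set_option autoImplicit false

/-!
# The descent in the double complex
-/

namespace Pool.Agent.FDC

namespace HDesc

variable {G S : Type} {T : G → S → G}

/-- evaluation at `τ` commutes with the coboundary -/
theorem dl_eval {Q : Type} {M : ℕ} (C : Cell G S M → Ch Q) (τ : Finset Q) :
    dl T (ZMod 2) M (fun z => C z τ) = fun z => (dl T (Ch Q) M C z) τ :=
  dl_comp T (Finsupp.applyAddHom τ) M C

theorem bd_dl {Q : Type} {M : ℕ} (B : Cell G S M → Ch Q) :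
    dl T (Ch Q) M (fun z => bd Q (B z)) = fun z => bd Q (dl T (Ch Q) M B z) :=
  dl_comp T (bd Q) M B

/-- One step of the descent. -/
theorem step [Finite S] {M n p : ℕ} {Q : Type} {V : Q → Set (Pos G M)} {U : Set (Pos G M)}
    (hfin : ∀ x, {q : Q | x ∈ V q}.Finite) {s s1 : ℕ}
    (hs1 : ∀ q, ∀ W ⊆ Th T s (V q), ∀ c ∈ CS (ZMod 2) S W (n + p),
      dl T (ZMod 2) M c = 0 → ∃ b ∈ CS (ZMod 2) S (Th T s1 W) (n + p - 1), dl T (ZMod 2) M b = c)
    (C : Cell G S M → Ch Q) (c : Cell G S M → ZMod 2)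
    (hC : ∀ z τ, C z τ ≠ 0 → τ.card ≤ p + 1 ∧ deg M z + 1 < n + τ.card ∧
      pos M z ∈ Th T s U ∧ ∀ q ∈ τ, pos M z ∈ Th T s (V q))
    (he : ∀ z, dl T (Ch Q) M C z + bd Q (C z) = base c z) :
    ∃ C' : Cell G S M → Ch Q,
      (∀ z τ, C' z τ ≠ 0 → τ.card ≤ p ∧ deg M z + 1 < n + τ.card ∧
        pos M z ∈ Th T (s1 + s) U ∧ ∀ q ∈ τ, pos M z ∈ Th T (s1 + s) (V q)) ∧
      (∀ z, dl T (Ch Q) M C' z + bd Q (C' z) = base c z) := by
  classical
  -- the sets `W`
  let W : Finset Q → Set (Pos G M) := fun τ => {x | x ∈ Th T s U ∧ ∀ q ∈ τ, x ∈ Th T s (V q)}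
  have key : ∀ τ : Finset Q, ∃ b : Cell G S M → ZMod 2,
      (τ.card = p + 1 → b ∈ CS (ZMod 2) S (Th T s1 (W τ)) (n + p - 1) ∧
        dl T (ZMod 2) M b = fun z => C z τ) ∧ (τ.card ≠ p + 1 → b = 0) := by
    intro τ
    by_cases hτ : τ.card = p + 1
    · have hne : τ.Nonempty := by
        rw [← Finset.card_pos]; omega
      obtain ⟨q, hq⟩ := hne
      have hW : W τ ⊆ Th T s (V q) := fun x hx => hx.2 q hq
      have hmem : (fun z => C z τ) ∈ CS (ZMod 2) S (W τ) (n + p) := by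
        intro z hz
        obtain ⟨h1, h2, h3, h4⟩ := hC z τ hz
        exact ⟨⟨h3, h4⟩, by omega⟩
      have hcl : dl T (ZMod 2) M (fun z => C z τ) = 0 := by
        rw [dl_eval]
        funext z
        have h1 : (dl T (Ch Q) M C z) τ + (bd Q (C z)) τ = (base c z : Ch Q) τ := by
          rw [← he z]; rfl
        have h2 : (bd Q (C z)) τ = 0 := by
          by_contra h
          obtain ⟨q', hq', h5⟩ := bd_support h
          have h6 := (hC z _ h5).1
          rw [Finset.card_insert_of_notMem hq'] at h6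
          omega
        have h3 : (base c z : Ch Q) τ = 0 := by
          unfold base
          rw [Finsupp.single_eq_of_ne]
          intro h
          rw [h] at hτ
          simp at hτ
        rw [h2, h3, add_zero] at h1
        exact h1
      obtain ⟨b, hb1, hb2⟩ := hs1 q (W τ) hW _ hmem hcl
      exact ⟨b, fun _ => ⟨hb1, hb2⟩, fun h => absurd hτ h⟩
    · exact ⟨0, fun h => absurd h hτ, fun _ => rfl⟩
  choose b hb1 hb0 using key
  -- supports of the functions `b τ`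
  have hbW : ∀ τ z, b τ z ≠ 0 → τ.card = p + 1 ∧ pos M z ∈ Th T s1 (W τ) ∧
      deg M z < n + p - 1 := by
    intro τ z hz
    have hτ : τ.card = p + 1 := by
      by_contra h
      apply hz
      rw [hb0 τ h]; rfl
    have := (hb1 τ hτ).1 z hz
    exact ⟨hτ, this.1, this.2⟩
  have hTh : ∀ τ z, b τ z ≠ 0 → pos M z ∈ Th T (s1 + s) U ∧
      ∀ q ∈ τ, pos M z ∈ Th T (s1 + s) (V q) := by
    intro τ z hz
    obtain ⟨_, ⟨y, hy, hzy⟩, _⟩ := hbW τ z hz
    refine ⟨Th_Th U ⟨y, hy.1, hzy⟩, fun q hq => Th_Th (V q) ⟨y, hy.2 q hq, hzy⟩⟩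
  have hfs : ∀ z, (Function.support (fun τ => b τ z)).Finite := by
    intro z
    have hF : (⋃ v ∈ {v | NrP T (s1 + s) M (pos M z) v}, {q : Q | v ∈ V q}).Finite :=
      Set.Finite.biUnion (NrP.finite (T := T) (s1 + s) M (pos M z)) fun v _ => hfin v
    apply (Set.Finite.finite_subsets hF).preimage
      (f := fun τ : Finset Q => (τ : Set Q)) (Finset.coe_injective.injOn) |>.subset
    intro τ hτ
    have hτ' : b τ z ≠ 0 := hτ
    intro q hq
    obtain ⟨v, hv, hzv⟩ := (hTh τ z hτ').2 q hq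
    simp only [Set.mem_iUnion]
    exact ⟨v, hzv, hv⟩
  let B : Cell G S M → Ch Q := fun z => Finsupp.ofSupportFinite (fun τ => b τ z) (hfs z)
  have hB : ∀ z τ, B z τ = b τ z := fun z τ => rfl
  have hdB : ∀ z τ, (dl T (Ch Q) M B z) τ = dl T (ZMod 2) M (b τ) z := by
    intro z τ
    have := congrFun (dl_eval (T := T) B τ) z
    exact this.symm
  have hdB1 : ∀ z τ, τ.card = p + 1 → (dl T (Ch Q) M B z) τ = C z τ := by
    intro z τ hτ
    rw [hdB, (hb1 τ hτ).2]
  have hdB0 : ∀ z τ, τ.card ≠ p + 1 → (dl T (Ch Q) M B z) τ = 0 := by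
    intro z τ hτ
    rw [hdB, hb0 τ hτ, map_zero]; rfl
  refine ⟨fun z => C z + dl T (Ch Q) M B z + bd Q (B z), ?_, ?_⟩
  · intro z τ hz
    have hz' : C z τ + (dl T (Ch Q) M B z) τ + (bd Q (B z)) τ ≠ 0 := hz
    have hbd : (bd Q (B z)) τ ≠ 0 → τ.card = p ∧ deg M z + 1 < n + p ∧
        pos M z ∈ Th T (s1 + s) U ∧ ∀ q ∈ τ, pos M z ∈ Th T (s1 + s) (V q) := by
      intro h
      obtain ⟨q, hq, h2⟩ := bd_support h
      rw [hB] at h2
      obtain ⟨h3, _, h5⟩ := hbW _ z h2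
      obtain ⟨h6, h7⟩ := hTh _ z h2
      rw [Finset.card_insert_of_notMem hq] at h3
      exact ⟨by omega, by omega, h6, fun q' hq' => h7 q' (Finset.mem_insert_of_mem hq')⟩
    by_cases hτ : τ.card = p + 1
    · exfalso
      have h1 : (bd Q (B z)) τ = 0 := by
        by_contra h
        have := (hbd h).1
        omega
      apply hz'
      rw [hdB1 z τ hτ, h1, add_zero]
      exact two_self _
    · rw [hdB0 z τ hτ, add_zero] at hz'
      by_cases hc : C z τ = 0
      · rw [hc, zero_add] at hz'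
        obtain ⟨h1, h2, h3, h4⟩ := hbd hz'
        exact ⟨by omega, by omega, h3, h4⟩
      · obtain ⟨h1, h2, h3, h4⟩ := hC z τ hc
        refine ⟨by omega, h2, Th_mono (by omega) subset_rfl h3, fun q hq =>
          Th_mono (by omega) subset_rfl (h4 q hq)⟩
  · intro z
    have h1 : dl T (Ch Q) M (fun z => C z + dl T (Ch Q) M B z + bd Q (B z)) =
        dl T (Ch Q) M C + dl T (Ch Q) M (dl T (Ch Q) M B) +
          dl T (Ch Q) M (fun z => bd Q (B z)) := by
      rw [← map_add, ← map_add]; rfl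
    rw [h1, dl_dl, bd_dl, add_zero]
    simp only [Pi.add_apply, map_add, bd_bd, add_zero]
    rw [← he z]
    have h2 := two_self (bd Q (dl T (Ch Q) M B z))
    calc dl T (Ch Q) M C z + bd Q (dl T (Ch Q) M B z) + (bd Q (C z) + bd Q (dl T (Ch Q) M B z))
        = dl T (Ch Q) M C z + bd Q (C z) +
          (bd Q (dl T (Ch Q) M B z) + bd Q (dl T (Ch Q) M B z)) := by abel
      _ = _ := by rw [h2, add_zero]

/-- The last step. -/
theorem last {M n : ℕ} {Q : Type} {U : Set (Pos G M)} {s : ℕ}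
    (C : Cell G S M → Ch Q) (c : Cell G S M → ZMod 2)
    (hC : ∀ z τ, C z τ ≠ 0 → τ.card ≤ 0 ∧ deg M z + 1 < n + τ.card ∧ pos M z ∈ Th T s U)
    (he : ∀ z, dl T (Ch Q) M C z + bd Q (C z) = base c z) :
    ∃ b ∈ CS (ZMod 2) S (Th T s U) (n - 1), dl T (ZMod 2) M b = c := by
  classical
  refine ⟨fun z => C z ∅, ?_, ?_⟩
  · intro z hz
    obtain ⟨h1, h2, h3⟩ := hC z ∅ hz
    refine ⟨h3, ?_⟩
    rw [Finset.card_empty] at h2
    omega
  · rw [dl_eval]
    funext z
    have h1 : (dl T (Ch Q) M C z) ∅ + (bd Q (C z)) ∅ = (base c z : Ch Q) ∅ := by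
      rw [← he z]; rfl
    have h2 : (bd Q (C z)) ∅ = 0 := by
      by_contra h
      obtain ⟨q', hq', h5⟩ := bd_support h
      have h6 := (hC z _ h5).1
      rw [Finset.card_insert_of_notMem hq'] at h6
      omega
    have h3 : (base c z : Ch Q) ∅ = c z := by
      unfold base
      exact Finsupp.single_eq_same
    rw [h2, h3, add_zero] at h1
    exact h1

end HDesc

open HDesc in
theorem p_desc : T_desc := by
  intro G S _ T _ M n d I Q V U hfin hyp
  have main : ∀ p ≤ d + 1, ∀ s : ℕ, ∃ s' : ℕ, ∀ i, ∀ C : Cell G S M → Ch (Q i),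
      ∀ c : Cell G S M → ZMod 2,
      (∀ z τ, C z τ ≠ 0 → τ.card ≤ p ∧ deg M z + 1 < n + τ.card ∧
        pos M z ∈ Th T s (U i) ∧ ∀ q ∈ τ, pos M z ∈ Th T s (V i q)) →
      (∀ z, dl T (Ch (Q i)) M C z + bd (Q i) (C z) = base c z) →
      ∃ b ∈ CS (ZMod 2) S (Th T s' (U i)) (n - 1), dl T (ZMod 2) M b = c := by
    intro p
    induction p with
    | zero =>
      intro _ s
      refine ⟨s, fun i C c hC he => ?_⟩
      exact last C c (fun z τ h => ⟨(hC z τ h).1, (hC z τ h).2.1, (hC z τ h).2.2.1⟩) he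
    | succ p ih =>
      intro hp s
      obtain ⟨s1, hs1⟩ := hyp p (by omega) s
      obtain ⟨s', hs'⟩ := ih (by omega) (s1 + s)
      refine ⟨s', fun i C c hC he => ?_⟩
      obtain ⟨C', h1, h2⟩ := step (hfin i) (hs1 i) C c hC he
      exact hs' i C' c h1 h2
  exact main (d + 1) le_rfl

end Pool.Agent.FDC
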