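import Pool.Agent.FDC.Main

set_option autoImplicit false

/-!
# The final statement, from the targets
-/

namespace Pool.Agent.FDC

theorem hasWeakFDC_of_hasFDC {𝒳 : Family} (h : HasFDC 𝒳) : HasWeakFDC 𝒳 := by
  intro ℭ h1 h2
  exact h ℭ h1 fun 𝒴 h3 => h2 𝒴 ⟨1, le_rfl, h3⟩

theorem TG_foldl (l : List (Fin 4)) (x : Grig.G) : l.foldl TG x = x * (l.map gen).prod := by
  induction l generalizing x with
  | nil => simp
  | cons s l ih =>
    rw [List.foldl_cons, ih, List.map_cons, List.prod_cons, TG, mul_assoc]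

theorem Nr_left {t : ℕ} {x y : Grig.G} (z : Grig.G) (h : Nr TG t x y) :
    Nr TG t (z * x) (z * y) := by
  obtain ⟨l, hl, rfl⟩ := h
  exact ⟨l, hl, by rw [TG_foldl, TG_foldl, mul_assoc]⟩

theorem Nr_mul {t t' : ℕ} {x y : Grig.G} (h : Nr TG t 1 x) (h' : Nr TG t' 1 y) :
    Nr TG (t + t') 1 (x * y) := by
  have h1 := Nr_left x h'
  rw [mul_one] at h1
  exact h.trans h1

theorem Nr_inv (hT : T_good) {t : ℕ} {x : Grig.G} (h : Nr TG t 1 x) : Nr TG t 1 x⁻¹ := by
  have h1 := Nr_left x⁻¹ (h.symm hT)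
  rwa [inv_mul_cancel, mul_one] at h1

section

variable (e : Grig.G ≃* Grigorchuk) {S : Set Grigorchuk} (hS : Subgroup.closure S = ⊤)

include hS in
theorem wordLength_path (l : List (Fin 4)) (L : ℕ) (hL : ∀ s, wordLength S (e (gen s)) ≤ L) :
    wordLength S (e (l.map gen).prod) ≤ l.length * L := by
  induction l with
  | nil => simp [wordLength_one]
  | cons s l ih =>
    rw [List.map_cons, List.prod_cons, map_mul, List.length_cons]
    have h1 := wordLength_mul hS (e (gen s)) (e (l.map gen).prod)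
    have h2 := hL s
    calc _ ≤ _ := h1
      _ ≤ L + l.length * L := add_le_add h2 ih
      _ = (l.length + 1) * L := by ring

theorem Nr_word (hT : T_good) (L : ℕ) (hL : ∀ s ∈ S, Nr TG L 1 (e.symm s)) (l : List Grigorchuk)
    (hl : ∀ x ∈ l, x ∈ S ∨ x⁻¹ ∈ S) : Nr TG (l.length * L) 1 (e.symm l.prod) := by
  induction l with
  | nil => simpa using Nr.refl (T := TG) 0 1
  | cons s l ih =>
    have h1 : Nr TG L 1 (e.symm s) := by
      rcases hl s (List.mem_cons_self) with h | h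
      · exact hL s h
      · have h2 := Nr_inv hT (hL _ h)
        rwa [← map_inv, inv_inv] at h2
    have h3 := Nr_mul h1 (ih fun x hx => hl x (List.mem_cons_of_mem _ hx))
    rw [List.prod_cons, map_mul, List.length_cons]
    exact h3.mono (by rw [add_mul, one_mul, add_comm])

end

theorem final_of (hmain : T_main) (hgood : T_good) (hsq : T_sq) (hperm : T_perm)
    (S : Set Grigorchuk) (hfin : S.Finite) (hS : Subgroup.closure S = ⊤) :
    ¬ HasWeakFDC {wordSpace S hS} := by
  obtain ⟨f1, f2, g, hsq⟩ := hsq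
  obtain ⟨e, _⟩ := hperm
  obtain ⟨L, hL⟩ : ∃ L, ∀ s, wordLength S (e (gen s)) ≤ L := by
    obtain ⟨L, hL⟩ := (Set.finite_range fun s => wordLength S (e (gen s))).bddAbove
    exact ⟨L, fun s => hL ⟨s, rfl⟩⟩
  obtain ⟨L', hL'⟩ : ∃ L, ∀ s ∈ S, Nr TG L 1 (e.symm s) := by
    choose ℓ hℓ using fun s : Grigorchuk => hgood.con 1 (e.symm s)
    obtain ⟨L, hL⟩ := (hfin.image ℓ).bddAbove
    exact ⟨L, fun s hs => (hℓ s).mono (hL ⟨s, hs, rfl⟩)⟩
  refine hmain Grig.G (Fin 4) TG hgood f1 f2 g hsq (wordSpace S hS) (fun x => e x)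
    (fun t => t * L) (fun t => t * L') ?_
  intro x y t
  have hd : dist (α := (wordSpace S hS).carrier) (e x) (e y) =
      (wordLength S ((e x)⁻¹ * e y) : ℝ) := rfl
  constructor
  · rintro ⟨l, hl, rfl⟩
    rw [hd, TG_foldl, map_mul, inv_mul_cancel_left]
    have h1 := wordLength_path e hS l L hL
    have h2 : l.length * L ≤ t * L := Nat.mul_le_mul_right L hl
    exact_mod_cast h1.trans h2
  · intro h
    rw [hd] at h
    have h0 : wordLength S ((e x)⁻¹ * e y) ≤ t := by exact_mod_cast h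
    obtain ⟨l, hl, hl', hg⟩ := wordLength_spec hS ((e x)⁻¹ * e y)
    have h1 := Nr_word e hgood L' hL' l hl'
    rw [hg, hl] at h1
    have h2 : e.symm ((e x)⁻¹ * e y) = x⁻¹ * y := by
      rw [map_mul, map_inv, MulEquiv.symm_apply_apply, MulEquiv.symm_apply_apply]
    rw [h2] at h1
    have h3 := Nr_left x h1
    rw [mul_one, mul_inv_cancel_left] at h3
    exact h3.mono (Nat.mul_le_mul_right L' h0)

end Pool.Agent.FDC
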