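import Pool.Agent.FDC.Targets
import Pool.Agent.Grig.Struct1
import Pool.Agent.Grig.Struct2

set_option autoImplicit false

/-!
# FDC-5/6: the Cayley graph of the Grigorchuk group and the coarse equivalence `G ≃ G × G`
-/

namespace Pool.Agent.FDC.GrigSq

open Pool.Agent.FDC Pool.Agent.Grig Pool.Agent.Grig.Aut

/-! ### The word metric -/

theorem gen_sq (s : Fin 4) : gen s * gen s = 1 := by
  fin_cases s
  · exact Subtype.ext a_mul_a
  · exact Subtype.ext b_mul_b
  · exact Subtype.ext c_mul_c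
  · exact Subtype.ext d_mul_d

theorem foldl_mul (x y : Grig.G) (l : List (Fin 4)) :
    l.foldl TG (x * y) = x * l.foldl TG y := by
  induction l generalizing y with
  | nil => rfl
  | cons s l ih =>
    rw [List.foldl_cons, List.foldl_cons]
    have : TG (x * y) s = x * TG y s := mul_assoc _ _ _
    rw [this, ih]

/-- Nearness is left invariant. -/
theorem Nr_left {t : ℕ} {x y : Grig.G} (h : Nr TG t 1 (x⁻¹ * y)) : Nr TG t x y := by
  obtain ⟨l, hl, e⟩ := h
  refine ⟨l, hl, ?_⟩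
  have := foldl_mul x 1 l
  rw [mul_one] at this
  rw [this, e, mul_inv_cancel_left]

theorem Nr_left' {t : ℕ} {x y : Grig.G} (h : Nr TG t x y) : Nr TG t 1 (x⁻¹ * y) := by
  obtain ⟨l, hl, e⟩ := h
  refine ⟨l, hl, ?_⟩
  have := foldl_mul x 1 l
  rw [mul_one, e] at this
  rw [this, inv_mul_cancel_left]

theorem exists_gen {s : Aut} (hs : s ∈ ({a, b, c, d} : Set Aut)) :
    ∃ i, ((gen i : Grig.G) : Aut) = s := by
  simp only [Set.mem_insert_iff, Set.mem_singleton_iff] at hs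
  rcases hs with rfl | rfl | rfl | rfl
  exacts [⟨0, rfl⟩, ⟨1, rfl⟩, ⟨2, rfl⟩, ⟨3, rfl⟩]

theorem con1 (x : Grig.G) : ∃ t, Nr TG t 1 x := by
  have key : ∀ g ∈ Grig.G, ∀ h : g ∈ Grig.G, ∃ t, Nr TG t 1 (⟨g, h⟩ : Grig.G) := by
    refine G_induction (P := fun g => ∀ h : g ∈ Grig.G, ∃ t, Nr TG t 1 (⟨g, h⟩ : Grig.G)) ?_ ?_
    · intro h
      exact ⟨0, Nr.refl 0 1⟩
    · intro s hs g hg ih h
      obtain ⟨i, rfl⟩ := exists_gen hs
      obtain ⟨t, ht⟩ := ih hg
      have h1 : Nr TG 1 (1 : Grig.G) (gen i) := by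
        have := Nr.step (T := TG) (1 : Grig.G) i
        rwa [TG, one_mul] at this
      have h2 : Nr TG t (gen i) (gen i * ⟨g, hg⟩) := by
        apply Nr_left
        rwa [inv_mul_cancel_left]
      exact ⟨1 + t, h1.trans h2⟩
  exact key x.1 x.2 x.2

theorem con (x y : Grig.G) : ∃ t, Nr TG t x y := by
  obtain ⟨t, ht⟩ := con1 (x⁻¹ * y)
  exact ⟨t, Nr_left ht⟩

/-- Finitely many elements have bounded length. -/
theorem fin_bound {F : Set Grig.G} (hF : F.Finite) : ∃ L, ∀ x ∈ F, Nr TG L 1 x := by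
  induction F, hF using Set.Finite.induction_on with
  | empty => exact ⟨0, fun x hx => absurd hx (Set.notMem_empty x)⟩
  | @insert x F _ _ ih =>
    obtain ⟨L, hL⟩ := ih
    obtain ⟨t, ht⟩ := con1 x
    refine ⟨max L t, fun y hy => ?_⟩
    rcases hy with rfl | hy
    · exact ht.mono (le_max_right _ _)
    · exact (hL y hy).mono (le_max_left _ _)

/-- If all quotients are in a finite set of automorphisms, then the distances are bounded. -/
theorem fin_L {F : Set Aut} (hF : F.Finite) :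
    ∃ L, ∀ x y : Grig.G, ((x : Aut)⁻¹ * (y : Aut)) ∈ F → Nr TG L x y := by
  have h1 : (Subtype.val ⁻¹' F : Set Grig.G).Finite :=
    hF.preimage (Subtype.val_injective.injOn)
  obtain ⟨L, hL⟩ := fin_bound h1
  exact ⟨L, fun x y hxy => Nr_left (hL _ hxy)⟩

/-! ### The group is infinite -/

theorem infinite_G : Infinite Grig.G := by
  by_contra hfin
  rw [not_infinite_iff_finite] at hfin
  have := hfin
  let N := Nat.card Grig.G
  have h : ∀ k : Fin (N + 1), ∃ g : Grig.G, (g : Aut).app (List.replicate N false) =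
      List.replicate k.1 true ++ List.replicate (N - k.1) false := by
    intro k
    have hk := k.2
    obtain ⟨g, hg, h1, _⟩ := p_selfrep (List.replicate N false)
      (List.replicate k.1 true ++ List.replicate (N - k.1) false) (by
        rw [List.length_append, List.length_replicate, List.length_replicate,
          List.length_replicate]
        omega) 1 G.one_mem
    exact ⟨⟨g, hg⟩, h1⟩
  choose f hf using h
  have hinj : Function.Injective f := by
    intro k k' hkk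
    have h1 := hf k
    rw [hkk, hf k'] at h1
    have h2 := congrArg (List.count true) h1
    simp only [List.count_append, List.count_replicate_self] at h2
    have h3 : ∀ n, List.count true (List.replicate n false) = 0 := by
      intro n
      rw [List.count_replicate]
      simp
    rw [h3, h3] at h2
    exact Fin.ext (by omega)
  have h4 := Nat.card_le_card_of_injective f hinj
  rw [Nat.card_eq_fintype_card, Fintype.card_fin] at h4
  change N + 1 ≤ N at h4
  omega

/-! ### The maps -/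

/-- `a` to a Boolean power, in the group -/
def ap (e : Bool) : Grig.G := bif e then ⟨a, a_mem⟩ else 1

/-- make the activity at the root trivial -/
def st (x : Grig.G) : Grig.G := x * ap (x : Aut).act

theorem st_act (x : Grig.G) : ((st x : Grig.G) : Aut).act = false := by
  change ((x : Aut) * ((ap (x : Aut).act : Grig.G) : Aut)).act = false
  rw [act_mul]
  cases (x : Aut).act <;> rfl

theorem st_near (x : Grig.G) : Nr TG 1 x (st x) := by
  unfold st
  cases (x : Aut).act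
  · simp only [ap, cond_false, mul_one]
    exact Nr.refl 1 x
  · exact Nr.step (T := TG) x 0

def f1 (x : Grig.G) : Grig.G := ⟨((st x : Grig.G) : Aut).sec false, p_sec _ (st x).2 false⟩
def f2 (x : Grig.G) : Grig.G := ⟨((st x : Grig.G) : Aut).sec true, p_sec _ (st x).2 true⟩

/-- the correcting factor -/
def tt (x y : Aut) : Aut := Struct2.rep (D (y⁻¹ * Struct2.rep (phi (D x))))

theorem tt_mem (x y : Aut) : tt x y ∈ Grig.G := Struct2.rep_mem _

theorem D_tt (x y : Aut) : D (y * tt x y) = phi (D x) := by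
  unfold tt
  rw [D_mul, Struct2.D_rep, ← D_mul, mul_inv_cancel_left, Struct2.D_rep]

theorem tt_one {x y : Aut} (h : D y = phi (D x)) : tt x y = 1 := by
  unfold tt
  rw [Struct2.D_inv_mul (h.trans (Struct2.D_rep _).symm)]
  simp [Struct2.rep, apow, Struct2.epow, Struct2.dpow]

def gg (x y : Grig.G) : Grig.G :=
  ⟨mk' false (x : Aut) ((y : Aut) * tt x y),
    p_mk p_D p_sec _ x.2 _ (Grig.G.mul_mem y.2 (tt_mem _ _)) (D_tt _ _)⟩

theorem gg_quot (x y x' y' : Grig.G) : ((gg x y : Grig.G) : Aut)⁻¹ * ((gg x' y' : Grig.G) : Aut) =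
    mk' false ((x : Aut)⁻¹ * (x' : Aut))
      ((tt x y)⁻¹ * ((y : Aut)⁻¹ * (y' : Aut)) * tt x' y') := by
  change (mk' false (x : Aut) ((y : Aut) * tt x y))⁻¹ * mk' false (x' : Aut) ((y' : Aut) * tt x' y')
    = _
  rw [mk'_false_inv, mk'_false_mul]
  congr 1
  group

theorem gg_f (x : Grig.G) : gg (f1 x) (f2 x) = st x := by
  apply Subtype.ext
  change mk' false (((st x : Grig.G) : Aut).sec false) ((((st x : Grig.G) : Aut).sec true) *
    tt (((st x : Grig.G) : Aut).sec false) (((st x : Grig.G) : Aut).sec true)) = _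
  rw [tt_one (p_D _ (st x).2), mul_one]
  have h := eq_mk' ((st x : Grig.G) : Aut)
  rw [st_act] at h
  exact h.symm

/-- the finite set of quotients of `st` along edges -/
theorem st_quot (x : Grig.G) (s : Fin 4) : ∃ e e' : Bool,
    ((st x : Grig.G) : Aut)⁻¹ * ((st (TG x s) : Grig.G) : Aut) =
      ((ap e : Grig.G) : Aut)⁻¹ * ((gen s : Grig.G) : Aut) * ((ap e' : Grig.G) : Aut) := by
  refine ⟨(x : Aut).act, ((TG x s : Grig.G) : Aut).act, ?_⟩
  change ((x : Aut) * ((ap (x : Aut).act : Grig.G) : Aut))⁻¹ *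
    (((x : Aut) * ((gen s : Grig.G) : Aut)) * ((ap ((TG x s : Grig.G) : Aut).act : Grig.G) : Aut)) = _
  group

theorem st_sec (x : Grig.G) (s : Fin 4) (i : Bool) : ∃ w : Bool × Fin 4 × Bool,
    (((st x : Grig.G) : Aut).sec i)⁻¹ * ((st (TG x s) : Grig.G) : Aut).sec i =
      (((ap w.1 : Grig.G) : Aut)⁻¹ * ((gen w.2.1 : Grig.G) : Aut) *
        ((ap w.2.2 : Grig.G) : Aut)).sec i := by
  obtain ⟨e, e', h⟩ := st_quot x s
  refine ⟨(e, s, e'), ?_⟩
  simp only
  rw [← h]
  rw [sec_mul, sec_inv, st_act, st_act]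
  simp

theorem fL (i : Bool) : ∃ L, ∀ (x : Grig.G) (s : Fin 4) (u v : Grig.G),
    (u : Aut) = ((st x : Grig.G) : Aut).sec i → (v : Aut) = ((st (TG x s) : Grig.G) : Aut).sec i →
    Nr TG L u v := by
  obtain ⟨L, hL⟩ := fin_L (Set.finite_range (fun w : Bool × Fin 4 × Bool =>
    (((ap w.1 : Grig.G) : Aut)⁻¹ * ((gen w.2.1 : Grig.G) : Aut) *
        ((ap w.2.2 : Grig.G) : Aut)).sec i))
  refine ⟨L, fun x s u v hu hv => hL u v ?_⟩
  rw [hu, hv]
  obtain ⟨w, hw⟩ := st_sec x s i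
  exact ⟨w, hw.symm⟩

theorem tt_rep (x y : Aut) : ∃ u, tt x y = Struct2.rep u := ⟨_, rfl⟩

theorem g1L : ∃ L, ∀ x y s, Nr TG L (gg x y) (gg (TG x s) y) := by
  obtain ⟨L, hL⟩ := fin_L (Set.finite_range
    (fun w : Fin 4 × (Bool × Bool × Bool) × (Bool × Bool × Bool) =>
      mk' false ((gen w.1 : Grig.G) : Aut) ((Struct2.rep w.2.1)⁻¹ * Struct2.rep w.2.2)))
  refine ⟨L, fun x y s => hL _ _ ?_⟩
  rw [gg_quot]
  obtain ⟨u, hu⟩ := tt_rep x y
  obtain ⟨u', hu'⟩ := tt_rep (TG x s : Grig.G) y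
  refine ⟨(s, u, u'), ?_⟩
  simp only
  rw [hu, hu']
  congr 1
  · change _ = (x : Aut)⁻¹ * ((x : Aut) * ((gen s : Grig.G) : Aut))
    rw [inv_mul_cancel_left]
  · rw [inv_mul_cancel, mul_one]

theorem g2L : ∃ L, ∀ x y s, Nr TG L (gg x y) (gg x (TG y s)) := by
  obtain ⟨L, hL⟩ := fin_L (Set.finite_range
    (fun w : Fin 4 × (Bool × Bool × Bool) × (Bool × Bool × Bool) =>
      mk' false 1 ((Struct2.rep w.2.1)⁻¹ * ((gen w.1 : Grig.G) : Aut) * Struct2.rep w.2.2)))
  refine ⟨L, fun x y s => hL _ _ ?_⟩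
  rw [gg_quot]
  obtain ⟨u, hu⟩ := tt_rep x y
  obtain ⟨u', hu'⟩ := tt_rep x (TG y s : Grig.G)
  refine ⟨(s, u, u'), ?_⟩
  simp only
  rw [hu, hu']
  congr 1
  · rw [inv_mul_cancel]
  · have : (y : Aut)⁻¹ * ((TG y s : Grig.G) : Aut) = ((gen s : Grig.G) : Aut) := by
      change (y : Aut)⁻¹ * ((y : Aut) * ((gen s : Grig.G) : Aut)) = _
      rw [inv_mul_cancel_left]
    rw [this]

theorem gC : ∀ t, ∃ t', ∀ x y x' y', Nr TG t (gg x y) (gg x' y') →
    Nr TG t' x x' ∧ Nr TG t' y y' := by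
  intro t
  have hB : ((fun w : Grig.G => (w : Aut)) '' {w | Nr TG t 1 w}).Finite :=
    (Nr.finite (T := TG) t 1).image _
  obtain ⟨L1, hL1⟩ := fin_L (hB.image (fun w : Aut => w.sec false))
  have hF2 : ((fun p : Aut × ((Bool × Bool × Bool) × (Bool × Bool × Bool)) =>
      Struct2.rep p.2.1 * p.1.sec true * (Struct2.rep p.2.2)⁻¹) ''
      (((fun w : Grig.G => (w : Aut)) '' {w | Nr TG t 1 w}) ×ˢ Set.univ)).Finite :=
    (hB.prod Set.finite_univ).image _
  obtain ⟨L2, hL2⟩ := fin_L hF2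
  refine ⟨max L1 L2, fun x y x' y' h => ?_⟩
  have h1 := Nr_left' h
  have hq := gg_quot x y x' y'
  have hmem : mk' false ((x : Aut)⁻¹ * (x' : Aut))
      ((tt x y)⁻¹ * ((y : Aut)⁻¹ * (y' : Aut)) * tt x' y') ∈
      ((fun w : Grig.G => (w : Aut)) '' {w | Nr TG t 1 w}) := by
    rw [← hq]
    exact ⟨_, h1, rfl⟩
  constructor
  · exact (hL1 x x' ⟨_, hmem, rfl⟩).mono (le_max_left _ _)
  · obtain ⟨u, hu⟩ := tt_rep x y
    obtain ⟨u', hu'⟩ := tt_rep x' y'
    refine (hL2 y y' ⟨(_, (u, u')), ⟨hmem, Set.mem_univ _⟩, ?_⟩).mono (le_max_right _ _)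
    change Struct2.rep u * ((tt x y)⁻¹ * ((y : Aut)⁻¹ * (y' : Aut)) * tt x' y') *
      (Struct2.rep u')⁻¹ = (y : Aut)⁻¹ * (y' : Aut)
    rw [← hu, ← hu']
    group

end Pool.Agent.FDC.GrigSq

namespace Pool.Agent.FDC

open GrigSq

/-- FDC-5 -/
theorem p_good : T_good where
  sym x s := ⟨s, by
    change x * gen s * gen s = x
    rw [mul_assoc, gen_sq, mul_one]⟩
  con := con
  unb D := by
    have hinf := infinite_G
    have hfin : {y | Nr TG D 1 y}.Finite := Nr.finite (T := TG) D 1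
    obtain ⟨y₀, hy₀⟩ := hfin.exists_notMem
    obtain ⟨R, hR⟩ := con1 y₀
    refine ⟨R, fun x => ⟨x * y₀, ?_, fun h => hy₀ ?_⟩⟩
    · apply Nr_left
      rwa [inv_mul_cancel_left]
    · have := Nr_left' h
      rwa [inv_mul_cancel_left] at this

/-- FDC-6 -/
theorem p_sq : T_sq := by
  refine ⟨f1, f2, gg, ?_, ?_, g1L, g2L, gC, 1, fun x => ?_⟩
  · obtain ⟨L, hL⟩ := fL false
    exact ⟨L, fun x s => hL x s _ _ rfl rfl⟩
  · obtain ⟨L, hL⟩ := fL true
    exact ⟨L, fun x s => hL x s _ _ rfl rfl⟩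
  · rw [gg_f]
    exact st_near x

end Pool.Agent.FDC
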