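import Pool.Agent.FDC.Targets

set_option autoImplicit false

/-!
# Assembly: the decomposition step and the general theorem
-/

namespace Pool.Agent.FDC

variable {G S : Type} {T : G → S → G}

/-- data of a coarse embedding of a set into a member of the family -/
structure MvIdx (T : G → S → G) (𝒱 : Family) (M : ℕ) (ρ σ : ℕ → ℕ) : Type 1 where
  /-- the member -/
  X : MSpace
  hX : X ∈ 𝒱
  /-- the relation -/
  R : Pos G M → X.carrier → Prop
  hR : Ctl T X ρ σ R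
  /-- the set -/
  U : Set (Pos G M)
  hU : ∀ x ∈ U, ∃ u, R x u

theorem dist_of_setDist {X : Type} [MetricSpace X] {r : ℝ} {A B : Set X}
    (h : ENNReal.ofReal r < setDist A B) {x y : X} (hx : x ∈ A) (hy : y ∈ B) : r < dist x y := by
  have h1 : setDist A B ≤ edist x y :=
    (iInf₂_le x hx).trans (iInf₂_le y hy)
  have h2 := h.trans_le h1
  rw [edist_dist] at h2
  exact (ENNReal.ofReal_lt_ofReal_iff'.1 h2).1

theorem p_mv (hasc : T_asc) (hdesc : T_desc) : T_mv := by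
  classical
  intro G S _ T hT 𝒱 d hdec M n hn ρ σ
  obtain ⟨𝒰, h𝒰, h𝒴⟩ := hdec (ρ ((2 * d + 2) + (2 * d + 2)) + 1) (by positivity)
  have hsep : ∀ (X : MSpace) (hX : X ∈ 𝒱) (j : Fin (d + 1)) (A B : Set X.carrier),
      A ∈ 𝒰 X hX j → B ∈ 𝒰 X hX j → ∀ u ∈ A, ∀ v ∈ B,
      dist u v ≤ ρ ((2 * d + 2) + (2 * d + 2)) → A = B := by
    intro X hX j A B hA hB u hu v hv huv
    by_contra hne
    have h1 := dist_of_setDist ((h𝒰 X hX).1 j A hA B hB hne) hu hv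
    linarith
  let Q : MvIdx T 𝒱 M ρ σ → Type := fun i => Fin (d + 1) × Set i.X.carrier
  let V : (i : MvIdx T 𝒱 M ρ σ) → Q i → Set (Pos G M) :=
    fun i q => {x | q.2 ∈ 𝒰 i.X i.hX q.1 ∧ ∃ u ∈ q.2, i.R x u}
  have hfin : ∀ i x, {q : Q i | x ∈ V i q}.Finite := by
    intro i x
    apply Set.Finite.of_finite_image (f := Prod.fst) (Set.toFinite _)
    rintro ⟨j, A⟩ ⟨hA, u, hu, hxu⟩ ⟨j', B⟩ ⟨hB, v, hv, hxv⟩ (hjj : j = j')
    subst hjj
    have h1 : A = B := hsep i.X i.hX j A B hA hB u hu v hv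
      ((i.hR x x u v hxu hxv _).1 (NrP.refl _ M x))
    rw [h1]
  have hsolv : ∀ p ≤ d, ∀ s : ℕ, ∃ s' : ℕ, ∀ i q, ∀ W ⊆ Th T s (V i q),
      ∀ c ∈ CS (ZMod 2) S W (n + p), dl T (ZMod 2) M c = 0 →
      ∃ b ∈ CS (ZMod 2) S (Th T s' W) (n + p - 1), dl T (ZMod 2) M b = c := by
    intro p hp s
    obtain ⟨s', hs'⟩ := h𝒴 M (n + p) (by omega) (fun t => ρ (s + t + s)) (fun t => s + σ t + s)
    refine ⟨s', fun i q W hW c hc hcl => ?_⟩
    by_cases hA : q.2 ∈ 𝒰 i.X i.hX q.1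
    · refine hs' W ⟨i.X.sub q.2, ⟨i.X, i.hX, q.1, q.2, hA, rfl⟩,
        fun x u => ∃ y, NrP T s M x y ∧ i.R y u.1, ?_, ?_⟩ c hc hcl
      · rintro x y u v ⟨x', hx', hxu⟩ ⟨y', hy', hyv⟩ t
        constructor
        · intro hxy
          exact (i.hR x' y' u.1 v.1 hxu hyv (s + t + s)).1 (((hx'.symm hT).trans hxy).trans hy')
        · intro huv
          have h1 := (i.hR x' y' u.1 v.1 hxu hyv t).2 huv
          exact (hx'.trans h1).trans (hy'.symm hT)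
      · intro x hx
        obtain ⟨y, ⟨_, u, hu, hyu⟩, hxy⟩ := hW hx
        exact ⟨⟨u, hu⟩, y, hxy, hyu⟩
    · have hc0 : c = 0 := by
        funext z
        by_contra hz
        obtain ⟨y, ⟨hy, _⟩, _⟩ := hW (hc z hz).1
        exact hA hy
      exact ⟨0, AddSubgroup.zero_mem _, by rw [hc0, map_zero]⟩
  obtain ⟨s', hs'⟩ := hdesc G S T hT M n d (MvIdx T 𝒱 M ρ σ) Q V (fun i => i.U) hfin hsolv
    (2 * d + 2)
  refine ⟨s', ?_⟩
  rintro U ⟨X, hX, R, hR, hU⟩ c hc hcl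
  obtain ⟨C, hC1, hC2⟩ := hasc G S T hT M n d (Q ⟨X, hX, R, hR, U, hU⟩) Prod.fst
    (V ⟨X, hX, R, hR, U, hU⟩) U (by
      intro x hx
      obtain ⟨u, hu⟩ := hU x hx
      have h1 : u ∈ ⋃ i, ⋃₀ 𝒰 X hX i := by rw [(h𝒰 X hX).2]; trivial
      obtain ⟨j, A, hA, huA⟩ := Set.mem_iUnion.1 h1
      exact ⟨(j, A), hA, u, huA, hu⟩) (by
      rintro ⟨j, A⟩ ⟨j', B⟩ x (hjj : j = j') ⟨y, ⟨hA, u, hu, hyu⟩, hxy⟩ ⟨y', ⟨hB, v, hv, hyv⟩, hxy'⟩
      subst hjj
      have h1 : A = B := hsep X hX j A B hA hB u hu v hv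
        ((hR y y' u v hyu hyv _).1 ((hxy.symm hT).trans hxy'))
      rw [h1]) c hc hcl
  exact hs' ⟨X, hX, R, hR, U, hU⟩ C c hC1 hC2

theorem VP_zero (𝒱 : Family) (M : ℕ) : VP T 𝒱 M 0 := by
  intro ρ σ
  refine ⟨0, fun U _ c hc _ => ⟨0, AddSubgroup.zero_mem _, ?_⟩⟩
  rw [map_zero]
  funext z
  by_contra hz
  exact absurd (hc z (Ne.symm hz)).2 (Nat.not_lt_zero _)

theorem bounded_mem_Thin (hbdd : T_bdd) (hT : Good T) (𝒴 : Family) (h : Bounded 𝒴) :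
    𝒴 ∈ Thin T := by
  obtain ⟨D, hD⟩ := h
  intro M n hn ρ σ
  obtain ⟨s, hs⟩ := hbdd G S T hT M n hn (σ ⌈D⌉₊)
  refine ⟨s, ?_⟩
  rintro U ⟨Y, hY, R, hR, hU⟩ c hc hcl
  refine hs U (fun x hx y hy => ?_) c hc hcl
  obtain ⟨u, hu⟩ := hU x hx
  obtain ⟨v, hv⟩ := hU y hy
  exact (hR x y u v hu hv ⌈D⌉₊).2 ((hD Y hY u v).trans (Nat.le_ceil D))

theorem weakDec_mem_Thin (htrans : T_trans) (hmv : T_mv) [Finite S] (hT : Good T)
    {f1 f2 : G → G} {g : G → G → G} (hsq : Sq T f1 f2 g) : StableWeakDec (Thin T) := by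
  rintro 𝒴 ⟨d, _, hdec⟩
  have h0 := hmv G S T hT 𝒴 d hdec
  have h1 : ∀ n M, n ≤ M → VP T 𝒴 M n := by
    intro n
    induction n with
    | zero => intro M _; exact VP_zero 𝒴 M
    | succ n ih =>
      have h2 : ∀ j M, n + 1 ≤ M → n + 1 + d ≤ M + j → VP T 𝒴 M (n + 1) := by
        intro j
        induction j with
        | zero => intro M _ h; exact h0 M (n + 1) h
        | succ j ihj =>
          intro M hM h
          obtain ⟨M, rfl⟩ : ∃ M', M = M' + 1 := ⟨M - 1, by omega⟩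
          exact htrans G S T hT f1 f2 g hsq 𝒴 M (n + 1) (ihj (M + 2) (by omega) (by omega))
            (ih M (by omega))
      intro M hM
      exact h2 d M hM (by omega)
  exact fun M n hn => h1 n M hn

theorem p_main (hbdd : T_bdd) (htrans : T_trans) (hmv : T_mv) : T_main := by
  intro G S _ hG T hT f1 f2 g hsq X φ ρ σ hφ hW
  have h1 : ({X} : Family) ∈ Thin T := hW (Thin T) (bounded_mem_Thin hbdd hT)
    (weakDec_mem_Thin htrans hmv hT hsq)
  obtain ⟨s, hs⟩ := h1 1 1 le_rfl ρ σ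
  let c : Cell G S 1 → ZMod 2 := asm (fun _ _ => 1) (fun _ _ => 0)
  have hcl : dl T (ZMod 2) 1 c = 0 := by
    apply coch_ext
    · intro x; rfl
    · intro x s
      funext z
      change (0 : ZMod 2) + (1 + 1) = 0
      decide
  obtain ⟨b, hb, hbc⟩ := hs Set.univ ⟨X, rfl, fun x u => u = φ x.2, by
    rintro x y u v rfl rfl t
    exact ⟨fun h => (hφ x.2 y.2 t).1 h.2, fun h => ⟨trivial, (hφ x.2 y.2 t).2 h⟩⟩,
    fun x _ => ⟨φ x.2, rfl⟩⟩ c (by
      intro z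
      obtain ⟨z, x, o⟩ := z
      intro hz
      cases o with
      | none => exact ⟨trivial, by change 0 + 0 < 1; norm_num⟩
      | some s => exact absurd rfl hz) hcl
  have hb0 : b = 0 := by
    funext z
    by_contra hz
    exact absurd (hb z hz).2 (Nat.not_lt_zero _)
  obtain ⟨x⟩ := hG
  have h2 : c (mk (() : Cell G S 0) x none) = 0 := by
    rw [← hbc, hb0, map_zero]; rfl
  have h3 : c (mk (() : Cell G S 0) x none) = 1 := rfl
  rw [h3] at h2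
  exact absurd h2 one_ne_zero

end Pool.Agent.FDC
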