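import Pool.Agent.FDC.Targets

set_option autoImplicit false

/-!
# FDC-7: Grigorchuk's group of permutations of binary sequences is the group of portraits
-/

namespace Pool.Agent.FDC
namespace PermSeq

open Grig.Aut

/-- the `n`-th letter of the image of the sequence `w` under the portrait automorphism `g` -/
def sqAux : ℕ → Grig.Aut → BSeq → Bool
  | 0, g, w => xor (w 0) g.act
  | n + 1, g, w => sqAux n (g.sec (w 0)) (tl w)

/-- the action of a portrait automorphism on the infinite sequences -/
def sq (g : Grig.Aut) (w : BSeq) : BSeq := fun n => sqAux n g w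

theorem tl_cns (x : Bool) (w : BSeq) : tl (cns x w) = w := rfl

theorem sq_cns (g : Grig.Aut) (x : Bool) (w : BSeq) :
    sq g (cns x w) = cns (xor x g.act) (sq (g.sec x) w) := by
  funext n; cases n <;> rfl

theorem tl_sq (g : Grig.Aut) (w : BSeq) : tl (sq g w) = sq (g.sec (w 0)) (tl w) := rfl

theorem sq_zero (g : Grig.Aut) (w : BSeq) : sq g w 0 = xor (w 0) g.act := rfl

theorem sq_succ (g : Grig.Aut) (w : BSeq) (n : ℕ) :
    sq g w (n + 1) = sq (g.sec (w 0)) (tl w) n := rfl

theorem sq_one_aux (n : ℕ) : ∀ w : BSeq, sq 1 w n = w n := by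
  induction n with
  | zero => intro w; rw [sq_zero, act_one, Bool.xor_false]
  | succ n ih => intro w; rw [sq_succ, sec_one, ih]; rfl

theorem sq_one (w : BSeq) : sq 1 w = w := funext fun n => sq_one_aux n w

theorem sq_mul_aux (n : ℕ) : ∀ (g h : Grig.Aut) (w : BSeq), sq (g * h) w n = sq g (sq h w) n := by
  induction n with
  | zero =>
    intro g h w
    rw [sq_zero, sq_zero, sq_zero, act_mul]
    cases w 0 <;> cases g.act <;> cases h.act <;> rfl
  | succ n ih =>
    intro g h w
    rw [sq_succ, sq_succ, sec_mul, ih, sq_zero, tl_sq]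

theorem sq_mul (g h : Grig.Aut) (w : BSeq) : sq (g * h) w = sq g (sq h w) :=
  funext fun n => sq_mul_aux n g h w

/-- the action on the infinite sequences as a homomorphism -/
def toPermS : Grig.Aut →* Equiv.Perm BSeq where
  toFun g := ⟨sq g, sq g⁻¹, fun w => by rw [← sq_mul, inv_mul_cancel, sq_one],
    fun w => by rw [← sq_mul, mul_inv_cancel, sq_one]⟩
  map_one' := by ext w : 1; exact sq_one w
  map_mul' g h := by ext w : 1; exact sq_mul g h w

theorem toPermS_apply (g : Grig.Aut) (w : BSeq) : toPermS g w = sq g w := rfl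

theorem p_eq (v : List Bool) : ∀ g h : Grig.Aut, (∀ w, sq g w = sq h w) → g.p v = h.p v := by
  induction v with
  | nil =>
    intro g h hgh
    have h1 : sq g (fun _ => false) 0 = sq h (fun _ => false) 0 := by rw [hgh]
    rw [sq_zero, sq_zero, Bool.false_xor, Bool.false_xor] at h1
    exact h1
  | cons x v ih =>
    intro g h hgh
    apply ih (g.sec x) (h.sec x)
    intro w
    have h1 : tl (sq g (cns x w)) = tl (sq h (cns x w)) := by rw [hgh]
    exact h1

theorem toPermS_injective : Function.Injective toPermS := by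
  intro g h hgh
  apply Grig.Aut.ext
  funext v
  exact p_eq v g h fun w => congrArg (fun σ : Equiv.Perm BSeq => σ w) hgh

theorem sq_a (w : BSeq) : sq Grig.a w = aSeq w := by
  rw [eq_cns w, aSeq_cns, sq_cns, Grig.sec_a, sq_one, Grig.act_a, Bool.xor_true]

theorem sq_bcd (n : ℕ) : ∀ w : BSeq,
    sq Grig.b w n = bSeq w n ∧ sq Grig.c w n = cSeq w n ∧ sq Grig.d w n = dSeq w n := by
  induction n with
  | zero =>
    intro w
    rw [sq_zero, sq_zero, sq_zero, Grig.act_b, Grig.act_c, Grig.act_d, Bool.xor_false]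
    exact ⟨rfl, rfl, rfl⟩
  | succ n ih =>
    intro w
    rw [eq_cns w]
    cases w 0
    · rw [bSeq_false, cSeq_false, dSeq_false, sq_cns, sq_cns, sq_cns, Grig.b_false, Grig.c_false,
        Grig.d_false, sq_a, sq_one]
      exact ⟨rfl, rfl, rfl⟩
    · rw [bSeq_true, cSeq_true, dSeq_true, sq_cns, sq_cns, sq_cns, Grig.b_true, Grig.c_true,
        Grig.d_true]
      exact ⟨(ih (tl w)).2.1, (ih (tl w)).2.2, (ih (tl w)).1⟩

theorem toPermS_a : toPermS Grig.a = aPerm := by ext w : 1; exact sq_a w
theorem toPermS_b : toPermS Grig.b = bPerm := by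
  ext w : 1; exact funext fun n => (sq_bcd n w).1
theorem toPermS_c : toPermS Grig.c = cPerm := by
  ext w : 1; exact funext fun n => (sq_bcd n w).2.1
theorem toPermS_d : toPermS Grig.d = dPerm := by
  ext w : 1; exact funext fun n => (sq_bcd n w).2.2

theorem map_G : Grig.G.map toPermS = Grigorchuk := by
  rw [Grig.G, MonoidHom.map_closure, Grigorchuk]
  congr 1
  simp only [Set.image_insert_eq, Set.image_singleton, toPermS_a, toPermS_b, toPermS_c, toPermS_d]

/-- the isomorphism -/
noncomputable def iso : Grig.G ≃* Grigorchuk :=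
  (Grig.G.equivMapOfInjective toPermS toPermS_injective).trans (MulEquiv.subgroupCongr map_G)

theorem coe_iso (g : Grig.G) : (iso g : Equiv.Perm BSeq) = toPermS g := rfl

end PermSeq

theorem p_perm : T_perm :=
  ⟨PermSeq.iso, PermSeq.toPermS_a, PermSeq.toPermS_b, PermSeq.toPermS_c, PermSeq.toPermS_d⟩

end Pool.Agent.FDC
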