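import Pool.Agent.FDC.Chains
import Pool.Agent.FDC.Defs
import Pool.Agent.Grig.Targets

set_option autoImplicit false

/-!
# Targets for MP_bba340_al: Grigorchuk's group does not have (weak) finite decomposition complexity

Every `T_*` is a `Prop`; each job delivers `theorem p_* : T_*`.  The paper proof is in
`Blueprint.lean.txt`.
-/

namespace Pool.Agent.FDC

section

variable {G S : Type} (T : G → S → G)

/-- `R` is a coarse embedding (with controls `ρ`, `σ`) of its domain into `X`, as a relation. -/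
def Ctl {M : ℕ} (X : MSpace) (ρ σ : ℕ → ℕ) (R : Pos G M → X.carrier → Prop) : Prop :=
  ∀ x y u v, R x u → R y v → ∀ t : ℕ,
    (NrP T t M x y → dist u v ≤ ρ t) ∧ (dist u v ≤ t → NrP T (σ t) M x y)

/-- `U` has a coarse embedding with controls `ρ`, `σ` into a member of the family. -/
def Adm (𝒱 : Family) {M : ℕ} (ρ σ : ℕ → ℕ) (U : Set (Pos G M)) : Prop :=
  ∃ X ∈ 𝒱, ∃ R : Pos G M → X.carrier → Prop, Ctl T X ρ σ R ∧ ∀ x ∈ U, ∃ u, R x u

/-- The vanishing property: cocycles of `K ^ M` of dimensions `< n` which are supported in a set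
`U` with a coarse embedding into a member of `𝒱` are coboundaries of cochains of dimensions
`< n - 1` supported near `U`. -/
def VP (𝒱 : Family) (M n : ℕ) : Prop :=
  ∀ ρ σ : ℕ → ℕ, ∃ s : ℕ, ∀ U : Set (Pos G M), Adm T 𝒱 ρ σ U →
    ∀ c ∈ CS (ZMod 2) S U n, dl T (ZMod 2) M c = 0 →
      ∃ b ∈ CS (ZMod 2) S (Th T s U) (n - 1), dl T (ZMod 2) M b = c

/-- The families with all vanishing properties. -/
def Thin : Set Family := {𝒱 | ∀ M n, n ≤ M → VP T 𝒱 M n}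

/-- `K` is coarsely equivalent to `K × K`; the data needed in the transfer argument. -/
structure Sq (f1 f2 : G → G) (g : G → G → G) : Prop where
  f1L : ∃ L, ∀ x s, Nr T L (f1 x) (f1 (T x s))
  f2L : ∃ L, ∀ x s, Nr T L (f2 x) (f2 (T x s))
  g1L : ∃ L, ∀ x y s, Nr T L (g x y) (g (T x s) y)
  g2L : ∃ L, ∀ x y s, Nr T L (g x y) (g x (T y s))
  gC : ∀ t, ∃ t', ∀ x y x' y', Nr T t (g x y) (g x' y') → Nr T t' x x' ∧ Nr T t' y y'
  gf : ∃ L, ∀ x, Nr T L x (g (f1 x) (f2 x))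

end

/-- FDC-1: vanishing for bounded supports. -/
def T_bdd : Prop := ∀ (G S : Type) (T : G → S → G), Good T → ∀ M n, n ≤ M → ∀ D : ℕ, ∃ s : ℕ,
  ∀ U : Set (Pos G M), (∀ x ∈ U, ∀ y ∈ U, NrP T D M x y) →
    ∀ c ∈ CS (ZMod 2) S U n, dl T (ZMod 2) M c = 0 →
      ∃ b ∈ CS (ZMod 2) S (Th T s U) (n - 1), dl T (ZMod 2) M b = c

/-- FDC-2: the transfer along `K ≃ K × K`. -/
def T_trans : Prop := ∀ (G S : Type) (T : G → S → G), Good T → ∀ (f1 f2 : G → G) (g : G → G → G),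
  Sq T f1 f2 g → ∀ (𝒱 : Family) (M n : ℕ), VP T 𝒱 (M + 2) n → VP T 𝒱 M (n - 1) →
    VP T 𝒱 (M + 1) n

/-- The chain of a cochain, concentrated on the empty set. -/
noncomputable def base {G S Q : Type} {M : ℕ} (c : Cell G S M → ZMod 2) : Cell G S M → Ch Q :=
  fun z => Finsupp.single ∅ (c z)

/-- FDC-3: the ascent in the double complex.  `V q` are the pieces, `col` is the colour; pieces of
the same colour are far apart. -/
def T_asc : Prop := ∀ (G S : Type) (T : G → S → G), Good T → ∀ (M n d : ℕ) (Q : Type)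
  (col : Q → Fin (d + 1)) (V : Q → Set (Pos G M)) (U : Set (Pos G M)),
  (∀ x ∈ U, ∃ q, x ∈ V q) →
  (∀ q q' x, col q = col q' → x ∈ Th T (2 * d + 2) (V q) → x ∈ Th T (2 * d + 2) (V q') → q = q') →
  ∀ c ∈ CS (ZMod 2) S U n, dl T (ZMod 2) M c = 0 →
  ∃ C : Cell G S M → Ch Q,
    (∀ z τ, C z τ ≠ 0 → τ.card ≤ d + 1 ∧ deg M z + 1 < n + τ.card ∧
      pos M z ∈ Th T (2 * d + 2) U ∧ ∀ q ∈ τ, pos M z ∈ Th T (2 * d + 2) (V q)) ∧
    (∀ z, dl T (Ch Q) M C z + bd Q (C z) = base c z)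

/-- FDC-4: the descent in the double complex.  Uniform over a class of systems, indexed by `I`. -/
def T_desc : Prop := ∀ (G S : Type) [Finite S] (T : G → S → G), Good T → ∀ (M n d : ℕ) (I : Type 1)
  (Q : I → Type) (V : (i : I) → Q i → Set (Pos G M)) (U : I → Set (Pos G M)),
  (∀ i x, {q : Q i | x ∈ V i q}.Finite) →
  (∀ p ≤ d, ∀ s : ℕ, ∃ s' : ℕ, ∀ i q, ∀ W ⊆ Th T s (V i q), ∀ c ∈ CS (ZMod 2) S W (n + p),
    dl T (ZMod 2) M c = 0 → ∃ b ∈ CS (ZMod 2) S (Th T s' W) (n + p - 1), dl T (ZMod 2) M b = c) →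
  ∀ s : ℕ, ∃ s' : ℕ, ∀ i, ∀ C : Cell G S M → Ch (Q i), ∀ c : Cell G S M → ZMod 2,
    (∀ z τ, C z τ ≠ 0 → τ.card ≤ d + 1 ∧ deg M z + 1 < n + τ.card ∧
      pos M z ∈ Th T s (U i) ∧ ∀ q ∈ τ, pos M z ∈ Th T s (V i q)) →
    (∀ z, dl T (Ch (Q i)) M C z + bd (Q i) (C z) = base c z) →
    ∃ b ∈ CS (ZMod 2) S (Th T s' (U i)) (n - 1), dl T (ZMod 2) M b = c

/-! ### The Grigorchuk group (portrait form of `Pool/Agent/Grig/Basic.lean`) -/

/-- the four generators -/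
def gen : Fin 4 → Grig.G
  | 0 => ⟨Grig.a, Grig.a_mem⟩
  | 1 => ⟨Grig.b, Grig.b_mem⟩
  | 2 => ⟨Grig.c, Grig.c_mem⟩
  | 3 => ⟨Grig.d, Grig.d_mem⟩

/-- The Cayley graph. -/
def TG (x : Grig.G) (s : Fin 4) : Grig.G := x * gen s

/-- FDC-5 -/
def T_good : Prop := Good TG

/-- FDC-6 -/
def T_sq : Prop := ∃ (f1 f2 : Grig.G → Grig.G) (g : Grig.G → Grig.G → Grig.G), Sq TG f1 f2 g

/-- FDC-7: Grigorchuk's group of permutations of binary sequences is the group of portraits. -/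
def T_perm : Prop := ∃ e : Grig.G ≃* Grigorchuk,
  (e (gen 0) : Equiv.Perm BSeq) = aPerm ∧ (e (gen 1) : Equiv.Perm BSeq) = bPerm ∧
  (e (gen 2) : Equiv.Perm BSeq) = cPerm ∧ (e (gen 3) : Equiv.Perm BSeq) = dPerm

/-- FDC-8: decomposition step. -/
def T_mv : Prop := ∀ (G S : Type) [Finite S] (T : G → S → G), Good T → ∀ (𝒱 : Family) (d : ℕ),
  (∀ r : ℝ, 0 < r → Decomposable r d (Thin T) 𝒱) → ∀ M n, n + d ≤ M → VP T 𝒱 M n

/-- FDC-9: the general theorem. -/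
def T_main : Prop := ∀ (G S : Type) [Finite S] [Nonempty G] (T : G → S → G), Good T →
  ∀ (f1 f2 : G → G) (g : G → G → G), Sq T f1 f2 g → ∀ (X : MSpace) (φ : G → X.carrier)
  (ρ σ : ℕ → ℕ), (∀ x y (t : ℕ), (Nr T t x y → dist (φ x) (φ y) ≤ ρ t) ∧
    (dist (φ x) (φ y) ≤ t → Nr T (σ t) x y)) → ¬ HasWeakFDC {X}

end Pool.Agent.FDC
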