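import Pool.Agent.FDC.Targets

set_option autoImplicit false

/-!
# FDC-2: the transfer along the coarse equivalence of `K` and `K × K`
-/

namespace Pool.Agent.FDC

namespace TransAux

variable {G S : Type} {T : G → S → G}

theorem lip {F : G → G} {L : ℕ} (h : ∀ x s, Nr T L (F x) (F (T x s))) {k : ℕ} {x y : G}
    (hxy : Nr T k x y) : Nr T (k * L) (F x) (F y) := by
  obtain ⟨l, hl, rfl⟩ := hxy
  induction l generalizing x k with
  | nil => exact Nr.refl _ _
  | cons s l ih =>
    have hl' : l.length + 1 ≤ k := by simpa using hl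
    obtain ⟨k', rfl⟩ : ∃ k', k = k' + 1 := ⟨k - 1, by omega⟩
    have h1 := ih (k := k') (x := T x s) (by omega)
    have h2 := (h x s).trans h1
    rw [List.foldl_cons]
    exact h2.mono (by rw [add_mul, one_mul, add_comm])

theorem Sl_sub {M : ℕ} {U : Set (Pos G (M + 1))} {k m : ℕ} {z z' : G} (h : Nr T k z z') :
    Sl (Th T m U) z' ⊆ Sl (Th T (k + m) U) z := by
  rintro a ⟨p, hp, h1, h2⟩
  exact ⟨p, hp, h1.mono (by omega), h.trans h2⟩

theorem Sl_sub0 {M : ℕ} {U : Set (Pos G (M + 1))} {k : ℕ} {z z' : G} (h : Nr T k z z') :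
    Sl U z' ⊆ Sl (Th T k U) z := by
  intro a ha
  exact ⟨(a, z'), ha, NrP.refl _ _ _, h⟩

theorem Th_Sl {M : ℕ} {U : Set (Pos G (M + 1))} {k : ℕ} {z : G} :
    Th T k (Sl U z) ⊆ Sl (Th T k U) z := by
  rintro a ⟨b, hb, h⟩
  exact ⟨(b, z), hb, h, Nr.refl _ _⟩

theorem Sl_mono {M : ℕ} {U V : Set (Pos G (M + 1))} (h : U ⊆ V) (z : G) : Sl U z ⊆ Sl V z :=
  fun _ ha => h ha

theorem adm_thick (hT : Good T) {M : ℕ} {𝒱 : Family} {ρ σ : ℕ → ℕ} {U : Set (Pos G M)}
    (hU : Adm T 𝒱 ρ σ U) (l : ℕ) :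
    Adm T 𝒱 (fun t => ρ (l + t + l)) (fun t => l + σ t + l) (Th T l U) := by
  obtain ⟨X, hX, R, hR, hc⟩ := hU
  refine ⟨X, hX, fun x u => ∃ y, R y u ∧ NrP T l M x y, ?_, ?_⟩
  · rintro x y u v ⟨x', hx', hxx'⟩ ⟨y', hy', hyy'⟩ t
    obtain ⟨h1, h2⟩ := hR x' y' u v hx' hy'  (l + t + l)
    obtain ⟨_, h3⟩ := hR x' y' u v hx' hy' t
    refine ⟨fun h => h1 (((hxx'.symm hT).trans h).trans hyy'), fun h => ?_⟩
    exact (hxx'.trans (h3 h)).trans (hyy'.symm hT)
  · rintro x ⟨y, hy, hxy⟩
    obtain ⟨u, hu⟩ := hc y hy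
    exact ⟨u, y, hu, hxy⟩

theorem adm_slice {M : ℕ} {𝒱 : Family} {ρ σ : ℕ → ℕ} {U : Set (Pos G (M + 1))}
    (hU : Adm T 𝒱 ρ σ U) (x0 : G) : Adm T 𝒱 ρ σ (Sl U x0) := by
  obtain ⟨X, hX, R, hR, hc⟩ := hU
  refine ⟨X, hX, fun a u => R (a, x0) u, ?_, ?_⟩
  · intro a b u v ha hb t
    obtain ⟨h1, h2⟩ := hR (a, x0) (b, x0) u v ha hb t
    exact ⟨fun h => h1 ⟨h, Nr.refl _ _⟩, fun h => (h2 h).1⟩
  · intro a ha
    exact hc _ ha

/-- the preimage of a set under the map `g` on the last two coordinates -/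
def hat (g : G → G → G) {M : ℕ} (U : Set (Pos G (M + 1))) : Set (Pos G (M + 2)) :=
  {p | ((p.1.1, g p.1.2 p.2) : Pos G M × G) ∈ U}

theorem g_near {g : G → G → G} {L : ℕ} (h1 : ∀ x y s, Nr T L (g x y) (g (T x s) y))
    (h2 : ∀ x y s, Nr T L (g x y) (g x (T y s))) {t : ℕ} {x x' y y' : G} (hx : Nr T t x x')
    (hy : Nr T t y y') : Nr T (t * L + t * L) (g x y) (g x' y') :=
  (lip (F := fun x => g x y) (fun x s => h1 x y s) hx).trans
    (lip (F := fun y => g x' y) (fun y s => h2 x' y s) hy)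

theorem adm_hat {g : G → G → G} {L : ℕ} (h1 : ∀ x y s, Nr T L (g x y) (g (T x s) y))
    (h2 : ∀ x y s, Nr T L (g x y) (g x (T y s))) {κ : ℕ → ℕ}
    (hκ : ∀ t x y x' y', Nr T t (g x y) (g x' y') → Nr T (κ t) x x' ∧ Nr T (κ t) y y')
    {M : ℕ} {𝒱 : Family} {ρ σ : ℕ → ℕ} {U : Set (Pos G (M + 1))} (hU : Adm T 𝒱 ρ σ U) :
    Adm T 𝒱 (fun t => ρ (t + (t * L + t * L))) (fun t => σ t + κ (σ t)) (hat g U) := by
  obtain ⟨X, hX, R, hR, hc⟩ := hU
  refine ⟨X, hX, fun p u => R (p.1.1, g p.1.2 p.2) u, ?_, ?_⟩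
  · rintro ⟨⟨a, x⟩, y⟩ ⟨⟨a', x'⟩, y'⟩ u v hu hv t
    obtain ⟨k1, _⟩ := hR _ _ u v hu hv (t + (t * L + t * L))
    obtain ⟨_, k2⟩ := hR _ _ u v hu hv t
    constructor
    · rintro ⟨⟨ha, hx⟩, hy⟩
      apply k1
      exact ⟨ha.mono (by omega), (g_near h1 h2 hx hy).mono (by omega)⟩
    · intro h
      obtain ⟨j1, j2⟩ := k2 h
      obtain ⟨j3, j4⟩ := hκ _ _ _ _ _ j2
      exact ⟨⟨j1.mono (Nat.le_add_right _ _), j3.mono (Nat.le_add_left _ _)⟩,
        j4.mono (Nat.le_add_left _ _)⟩
  · intro p hp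
    exact hc _ hp

theorem eq_of_add {A : Type} [AddCommGroup A] [Module (ZMod 2) A] {a b : A} (h : a + b = 0) :
    a = b := by
  calc a = a + (b + b) := by rw [two_self, add_zero]
    _ = (a + b) + b := by rw [add_assoc]
    _ = b := by rw [h, zero_add]

theorem psum_tel0 {A B : Type} [AddCommGroup A] [AddCommGroup B] [Module (ZMod 2) B] (φ : A →+ B)
    (e : G → S → A) (v : G → B) (h : ∀ x s, φ (e x s) = v x + v (T x s)) (x : G) (l : List S) :
    φ (psum T e x l) = v x + v (l.foldl T x) := by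
  have h1 := psum_tel (T := T) φ e v (fun _ _ => 0) (fun x s => by rw [h, add_zero]) x l
  have h2 : ∀ (l : List S) (x : G), psum T (fun _ _ => (0 : B)) x l = 0 := by
    intro l
    induction l with
    | nil => intro x; rfl
    | cons s l ih => intro x; rw [psum_cons, ih, add_zero]
  rw [h1, h2, add_zero]

end TransAux

open TransAux

theorem p_trans : T_trans := by
  intro G S T hT f1 f2 g hS 𝒱 M n hVP2 hVP0 ρ σ
  obtain ⟨⟨La, ha⟩, ⟨Lb, hb⟩, ⟨Lc, hc⟩, ⟨Ld, hd⟩, hgC, ⟨Le, he⟩⟩ := hS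
  choose κ hκ using hgC
  obtain ⟨L, hLa, hLb, hLc, hLd, hLe⟩ : ∃ L, La ≤ L ∧ Lb ≤ L ∧ Lc ≤ L ∧ Ld ≤ L ∧ Le ≤ L :=
    ⟨La + Lb + Lc + Ld + Le, by omega, by omega, by omega, by omega, by omega⟩
  have kf1 : ∀ x s, Nr T L (f1 x) (f1 (T x s)) := fun x s => (ha x s).mono hLa
  have kf2 : ∀ x s, Nr T L (f2 x) (f2 (T x s)) := fun x s => (hb x s).mono hLb
  have kg1 : ∀ x y s, Nr T L (g x y) (g (T x s) y) := fun x y s => (hc x y s).mono hLc
  have kg2 : ∀ x y s, Nr T L (g x y) (g x (T y s)) := fun x y s => (hd x y s).mono hLd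
  have kr : ∀ x, Nr T L x (g (f1 x) (f2 x)) := fun x => (he x).mono hLe
  clear ha hb hc hd he hLa hLb hLc hLd hLe
  have kf1' := kf1
  have kf2' := kf2
  have kg1' := kg1
  have kg2' := kg2
  have kr' := kr
  choose q1 hq1 hq1' using kf1'
  choose q2 hq2 hq2' using kf2'
  choose p1 hp1 hp1' using kg1'
  choose p2 hp2 hp2' using kg2'
  choose r hr hr' using kr'
  -- the constants
  obtain ⟨s1, hs1⟩ := hVP0 (fun t => ρ ((L + L) + t + (L + L))) (fun t => (L + L) + σ t + (L + L))
  set l3 : ℕ := (L + (L * L + L * L)) + L + 1 with hl3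
  obtain ⟨s3, hs3⟩ := hVP0 (fun t => ρ (l3 + t + l3)) (fun t => l3 + σ t + l3)
  set l' : ℕ := s1 + (L + L) with hl'
  obtain ⟨s2, hs2⟩ := hVP2
    (fun t => ρ (l' + (t + (t * L + t * L)) + l'))
    (fun t => (l' + σ t + l') + κ (l' + σ t + l'))
  refine ⟨(s3 + l3) + (L + (L * L + L * L) + (s2 * L + s2 * L) + s2 + l'), ?_⟩
  intro U hU c hc hdc
  -- the components
  set v : G → Cell G S M → ZMod 2 := fun x => pt c x none with hv
  set e : G → S → Cell G S M → ZMod 2 := fun x s => pt c x (some s) with he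
  have hdv : ∀ x, dl T (ZMod 2) M (v x) = 0 := by
    intro x
    have h := congrArg (fun d => pt d x none) hdc
    simpa using h
  have hde : ∀ x s, dl T (ZMod 2) M (e x s) = v x + v (T x s) := by
    intro x s
    have h := congrArg (fun d => pt d x (some s)) hdc
    simp only [pt_dl_some, pt_zero] at h
    have h2 : dl T (ZMod 2) M (e x s) + (v x + v (T x s)) = 0 := h
    exact eq_of_add h2
  have hvS : ∀ x, v x ∈ CS (ZMod 2) S (Sl U x) n := fun x => pt_none_mem hc x
  have heS : ∀ x s, e x s ∈ CS (ZMod 2) S (Sl U x) (n - 1) := fun x s => pt_some_mem hc x s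
  -- path sums of edges of `K` near `z`
  have hpath : ∀ (z : G) (l : List S), l.length ≤ L →
      psum T e z l ∈ CS (ZMod 2) S (Sl (Th T L U) z) (n - 1) := by
    intro z l hl
    apply psum_mem
    intro y s hy
    exact CS_mono (Sl_sub0 (hy.mono hl)) le_rfl (heS y s)
  set E1 : G → G → S → Cell G S M → ZMod 2 := fun x y s => psum T e (g x y) (p1 x y s) with hE1
  set E2 : G → G → S → Cell G S M → ZMod 2 := fun x y s => psum T e (g x y) (p2 x y s) with hE2
  have hE1S : ∀ x y s, E1 x y s ∈ CS (ZMod 2) S (Sl (Th T L U) (g x y)) (n - 1) :=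
    fun x y s => hpath _ _ (hp1 x y s)
  have hE2S : ∀ x y s, E2 x y s ∈ CS (ZMod 2) S (Sl (Th T L U) (g x y)) (n - 1) :=
    fun x y s => hpath _ _ (hp2 x y s)
  have hdE1 : ∀ x y s, dl T (ZMod 2) M (E1 x y s) = v (g x y) + v (g (T x s) y) := by
    intro x y s
    have h := psum_tel0 (T := T) (dl T (ZMod 2) M) e v hde (g x y) (p1 x y s)
    rw [hp1'] at h
    exact h
  have hdE2 : ∀ x y s, dl T (ZMod 2) M (E2 x y s) = v (g x y) + v (g x (T y s)) := by
    intro x y s
    have h := psum_tel0 (T := T) (dl T (ZMod 2) M) e v hde (g x y) (p2 x y s)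
    rw [hp2'] at h
    exact h
  -- the squares
  have hmu : ∀ x y s s', ∃ m ∈ CS (ZMod 2) S (Th T s1 (Sl (Th T (L + L) U) (g x y))) (n - 1 - 1),
      dl T (ZMod 2) M m = (E2 x y s' + E2 (T x s) y s') + (E1 x y s + E1 x (T y s') s) := by
    intro x y s s'
    apply hs1 (Sl (Th T (L + L) U) (g x y)) (adm_slice (adm_thick hT hU (L + L)) _)
    · refine add_mem (add_mem ?_ ?_) (add_mem ?_ ?_)
      · exact CS_mono (Sl_mono (Th_mono (by omega) subset_rfl) _) le_rfl (hE2S x y s')
      · exact CS_mono (Sl_sub (kg1 x y s)) le_rfl (hE2S _ y s')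
      · exact CS_mono (Sl_mono (Th_mono (by omega) subset_rfl) _) le_rfl (hE1S x y s)
      · exact CS_mono (Sl_sub (kg2 x y s')) le_rfl (hE1S x _ s)
    · simp only [map_add, hdE1, hdE2]
      have e1 := two_self (v (g x y))
      have e2 := two_self (v (g (T x s) y))
      have e3 := two_self (v (g x (T y s')))
      have e4 := two_self (v (g (T x s) (T y s')))
      calc _ = (v (g x y) + v (g x y)) + (v (g (T x s) y) + v (g (T x s) y)) +
            (v (g x (T y s')) + v (g x (T y s'))) +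
            (v (g (T x s) (T y s')) + v (g (T x s) (T y s'))) := by abel
        _ = 0 := by rw [e1, e2, e3, e4]; simp
  choose mu hmuS hdmu using hmu
  have hmuS' : ∀ x y s s', mu x y s s' ∈ CS (ZMod 2) S (Sl (Th T l' U) (g x y)) (n - 1 - 1) := by
    intro x y s s'
    refine CS_mono ?_ le_rfl (hmuS x y s s')
    exact Th_Sl.trans (Sl_mono (Th_Th U) _)
  -- the cochain on `K ^ (M + 2)`
  obtain ⟨chat, hchat⟩ : ∃ chat : Cell G S (M + 1 + 1) → ZMod 2, chat =
      asm (fun y => asm (fun x => v (g x y)) (fun x s => E1 x y s))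
        (fun y s' => asm (fun x => E2 x y s') (fun x s => mu x y s s')) := ⟨_, rfl⟩
  have hchatS : chat ∈ CS (ZMod 2) S (hat g (Th T l' U)) n := by
    rw [hchat]
    apply mem_of_parts
    · intro y
      apply mem_of_parts
      · intro x
        exact CS_mono (Sl_mono (subset_Th _ _) (g x y)) le_rfl (hvS (g x y))
      · intro x s
        exact CS_mono (Sl_mono (Th_mono (by omega) subset_rfl) (g x y)) le_rfl (hE1S x y s)
    · intro y s'
      apply mem_of_parts
      · intro x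
        exact CS_mono (Sl_mono (Th_mono (by omega) subset_rfl) (g x y)) le_rfl (hE2S x y s')
      · intro x s
        exact hmuS' x y s s'
  have hdchat : dl T (ZMod 2) (M + 1 + 1) chat = 0 := by
    rw [hchat]
    apply coch_ext
    · intro y
      rw [pt_dl_none, pt_asm_none]
      apply coch_ext
      · intro x
        rw [pt_dl_none, pt_asm_none, hdv]; rfl
      · intro x s
        rw [pt_dl_some, pt_asm_some, pt_asm_none, pt_asm_none, hdE1]
        exact two_self _
    · intro y s'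
      rw [pt_dl_some, pt_asm_some, pt_asm_none, pt_asm_none]
      apply coch_ext
      · intro x
        rw [pt_add, pt_add, pt_dl_none, pt_asm_none, pt_asm_none, pt_asm_none, hdE2]
        exact two_self _
      · intro x s
        rw [pt_add, pt_add, pt_dl_some, pt_asm_some, pt_asm_some, pt_asm_some, pt_asm_none,
          pt_asm_none, hdmu]
        have e1 := two_self (E2 x y s')
        have e2 := two_self (E2 (T x s) y s')
        have e3 := two_self (E1 x y s)
        have e4 := two_self (E1 x (T y s') s)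
        calc _ = (E2 x y s' + E2 x y s') + (E2 (T x s) y s' + E2 (T x s) y s') +
              (E1 x y s + E1 x y s) + (E1 x (T y s') s + E1 x (T y s') s) := by abel
          _ = 0 := by rw [e1, e2, e3, e4]; simp
  obtain ⟨bhat, hbS, hdb⟩ := hs2 (hat g (Th T l' U))
    (adm_hat kg1 kg2 hκ (adm_thick hT hU l')) chat hchatS hdchat
  -- components of `bhat`
  set B00 : G → G → Cell G S M → ZMod 2 := fun x y => pt (pt bhat y none) x none with hB00
  set B10 : G → G → S → Cell G S M → ZMod 2 := fun x y s => pt (pt bhat y none) x (some s)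
    with hB10
  set B01 : G → G → S → Cell G S M → ZMod 2 := fun x y s => pt (pt bhat y (some s)) x none
    with hB01
  have hd00 : ∀ x y, dl T (ZMod 2) M (B00 x y) = v (g x y) := by
    intro x y
    have h := congrArg (fun d => pt (pt d y none) x none) hdb
    rw [hchat] at h
    simpa using h
  have hd10 : ∀ x y s, dl T (ZMod 2) M (B10 x y s) = B00 x y + B00 (T x s) y + E1 x y s := by
    intro x y s
    have h := congrArg (fun d => pt (pt d y none) x (some s)) hdb
    rw [hchat] at h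
    have h' : dl T (ZMod 2) M (B10 x y s) + (B00 x y + B00 (T x s) y) = E1 x y s := h
    apply eq_of_add
    rw [← add_assoc, h']
    exact two_self _
  have hd01 : ∀ x y s, dl T (ZMod 2) M (B01 x y s) = B00 x y + B00 x (T y s) + E2 x y s := by
    intro x y s
    have h := congrArg (fun d => pt (pt d y (some s)) x none) hdb
    rw [hchat] at h
    have h' : dl T (ZMod 2) M (B01 x y s) + (B00 x y + B00 x (T y s)) = E2 x y s := h
    apply eq_of_add
    rw [← add_assoc, h']
    exact two_self _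
  -- supports
  have hgf : ∀ x, Nr T L x (g (f1 x) (f2 x)) := kr
  have hsl : ∀ (k : ℕ) (x x' y' : G), Nr T k x (g x' y') →
      Sl (Sl (Th T s2 (hat g (Th T l' U))) y') x' ⊆
        Sl (Th T (k + (s2 * L + s2 * L) + s2 + l') U) x := by
    rintro k x x' y' hk a ⟨⟨⟨a1, x1⟩, y1⟩, ⟨p, hp, h1, h2⟩, ⟨h3, h4⟩, h5⟩
    refine ⟨p, hp, ?_, ?_⟩
    · exact (h3.trans h1).mono (by omega)
    · exact ((hk.trans (g_near kg1 kg2 h4 h5)).trans h2).mono (by omega)
  set K : ℕ := L + (L * L + L * L) + (s2 * L + s2 * L) + s2 + l' with hK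
  have h00S : ∀ x x' y', Nr T (L + (L * L + L * L)) x (g x' y') →
      B00 x' y' ∈ CS (ZMod 2) S (Sl (Th T K U) x) (n - 1) := fun x x' y' h =>
    CS_mono (hsl _ x x' y' h) le_rfl (pt_none_mem (pt_none_mem hbS y') x')
  have h10S : ∀ x x' y' s, Nr T (L + (L * L + L * L)) x (g x' y') →
      B10 x' y' s ∈ CS (ZMod 2) S (Sl (Th T K U) x) (n - 1 - 1) := fun x x' y' s h =>
    CS_mono (hsl _ x x' y' h) le_rfl (pt_some_mem (pt_none_mem hbS y') x' s)
  have h01S : ∀ x x' y' s, Nr T (L + (L * L + L * L)) x (g x' y') →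
      B01 x' y' s ∈ CS (ZMod 2) S (Sl (Th T K U) x) (n - 1 - 1) := fun x x' y' s h =>
    CS_mono (hsl _ x x' y' h) le_rfl (pt_none_mem (pt_some_mem hbS y' s) x')
  -- the points used along the paths
  have near1 : ∀ x x', Nr T L (f1 x) x' → Nr T (L + (L * L + L * L)) x (g x' (f2 x)) := by
    intro x x' h
    exact ((kr x).trans (lip (F := fun z => g z (f2 x)) (fun z s => kg1 z _ s) h)).mono (by omega)
  have near2 : ∀ x s y', Nr T L (f2 x) y' →
      Nr T (L + (L * L + L * L)) x (g (f1 (T x s)) y') := by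
    intro x s y' h
    exact (kr x).trans (g_near kg1 kg2 (kf1 x s) h)
  -- the pull-back of `bhat`
  set W : G → S → Cell G S M → ZMod 2 := fun x s =>
    psum T (fun x' s' => E1 x' (f2 x) s') (f1 x) (q1 x s) +
      psum T (fun y' s' => E2 (f1 (T x s)) y' s') (f2 x) (q2 x s) with hW
  set be : G → S → Cell G S M → ZMod 2 := fun x s =>
    psum T (fun x' s' => B10 x' (f2 x) s') (f1 x) (q1 x s) +
      psum T (fun y' s' => B01 (f1 (T x s)) y' s') (f2 x) (q2 x s) with hbe
  have hdbe : ∀ x s, dl T (ZMod 2) M (be x s) +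
      (B00 (f1 x) (f2 x) + B00 (f1 (T x s)) (f2 (T x s))) = W x s := by
    intro x s
    have h1 := psum_tel (T := T) (dl T (ZMod 2) M) (fun x' s' => B10 x' (f2 x) s')
      (fun x' => B00 x' (f2 x)) (fun x' s' => E1 x' (f2 x) s') (fun x' s' => hd10 x' (f2 x) s')
      (f1 x) (q1 x s)
    have h2 := psum_tel (T := T) (dl T (ZMod 2) M) (fun y' s' => B01 (f1 (T x s)) y' s')
      (fun y' => B00 (f1 (T x s)) y') (fun y' s' => E2 (f1 (T x s)) y' s')
      (fun y' s' => hd01 (f1 (T x s)) y' s') (f2 x) (q2 x s)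
    rw [hq1'] at h1
    rw [hq2'] at h2
    rw [hbe, hW]
    simp only [map_add]
    rw [h1, h2]
    have e1 := two_self (B00 (f1 x) (f2 x))
    have e2 := two_self (B00 (f1 (T x s)) (f2 x))
    have e3 := two_self (B00 (f1 (T x s)) (f2 (T x s)))
    calc _ = (B00 (f1 x) (f2 x) + B00 (f1 x) (f2 x)) +
          (B00 (f1 (T x s)) (f2 x) + B00 (f1 (T x s)) (f2 x)) +
          (B00 (f1 (T x s)) (f2 (T x s)) + B00 (f1 (T x s)) (f2 (T x s))) +
          (psum T (fun x' s' => E1 x' (f2 x) s') (f1 x) (q1 x s) +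
            psum T (fun y' s' => E2 (f1 (T x s)) y' s') (f2 x) (q2 x s)) := by abel
      _ = _ := by rw [e1, e2, e3]; simp
  have hdW : ∀ x s, dl T (ZMod 2) M (W x s) =
      v (g (f1 x) (f2 x)) + v (g (f1 (T x s)) (f2 (T x s))) := by
    intro x s
    have h1 := psum_tel0 (T := T) (dl T (ZMod 2) M) (fun x' s' => E1 x' (f2 x) s')
      (fun x' => v (g x' (f2 x))) (fun x' s' => hdE1 x' (f2 x) s') (f1 x) (q1 x s)
    have h2 := psum_tel0 (T := T) (dl T (ZMod 2) M) (fun y' s' => E2 (f1 (T x s)) y' s')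
      (fun y' => v (g (f1 (T x s)) y')) (fun y' s' => hdE2 (f1 (T x s)) y' s') (f2 x) (q2 x s)
    rw [hq1'] at h1
    rw [hq2'] at h2
    rw [hW]
    simp only [map_add]
    rw [h1, h2]
    have e2 := two_self (v (g (f1 (T x s)) (f2 x)))
    calc _ = (v (g (f1 (T x s)) (f2 x)) + v (g (f1 (T x s)) (f2 x))) +
          (v (g (f1 x) (f2 x)) + v (g (f1 (T x s)) (f2 (T x s)))) := by abel
      _ = _ := by rw [e2, zero_add]
  have hWS : ∀ x s, W x s ∈ CS (ZMod 2) S (Sl (Th T (L + (L * L + L * L) + L) U) x) (n - 1) := by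
    intro x s
    apply add_mem
    · apply psum_mem
      intro x' s' hx'
      exact CS_mono (Sl_sub (near1 x x' (hx'.mono (hq1 x s)))) le_rfl (hE1S _ _ _)
    · apply psum_mem
      intro y' s' hy'
      exact CS_mono (Sl_sub (near2 x s y' (hy'.mono (hq2 x s)))) le_rfl (hE2S _ _ _)
  have hbeS : ∀ x s, be x s ∈ CS (ZMod 2) S (Sl (Th T K U) x) (n - 1 - 1) := by
    intro x s
    apply add_mem
    · apply psum_mem
      intro x' s' hx'
      exact h10S x x' _ s' (near1 x x' (hx'.mono (hq1 x s)))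
    · apply psum_mem
      intro y' s' hy'
      exact h01S x _ y' s' (near2 x s y' (hy'.mono (hq2 x s)))
  -- the homotopy
  set h : G → Cell G S M → ZMod 2 := fun x => psum T e x (r x) with hh
  have hdh : ∀ x, dl T (ZMod 2) M (h x) = v x + v (g (f1 x) (f2 x)) := by
    intro x
    have h1 := psum_tel0 (T := T) (dl T (ZMod 2) M) e v hde x (r x)
    rw [hr'] at h1
    exact h1
  have hhS : ∀ x, h x ∈ CS (ZMod 2) S (Sl (Th T L U) x) (n - 1) := fun x => hpath x _ (hr x)
  have hlam : ∀ x s, ∃ m ∈ CS (ZMod 2) S (Th T s3 (Sl (Th T l3 U) x)) (n - 1 - 1),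
      dl T (ZMod 2) M m = (h x + h (T x s)) + (e x s + W x s) := by
    intro x s
    apply hs3 (Sl (Th T l3 U) x) (adm_slice (adm_thick hT hU l3) _)
    · refine add_mem (add_mem ?_ ?_) (add_mem ?_ ?_)
      · exact CS_mono (Sl_mono (Th_mono (by omega) subset_rfl) _) le_rfl (hhS x)
      · exact CS_mono ((Sl_sub (Nr.step x s)).trans (Sl_mono (Th_mono (by omega) subset_rfl) _))
          le_rfl (hhS (T x s))
      · exact CS_mono (Sl_mono (subset_Th _ _) _) le_rfl (heS x s)
      · exact CS_mono (Sl_mono (Th_mono (by omega) subset_rfl) _) le_rfl (hWS x s)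
    · simp only [map_add, hdh, hde, hdW]
      have e1 := two_self (v x)
      have e2 := two_self (v (T x s))
      have e3 := two_self (v (g (f1 x) (f2 x)))
      have e4 := two_self (v (g (f1 (T x s)) (f2 (T x s))))
      calc _ = (v x + v x) + (v (T x s) + v (T x s)) +
            (v (g (f1 x) (f2 x)) + v (g (f1 x) (f2 x))) +
            (v (g (f1 (T x s)) (f2 (T x s))) + v (g (f1 (T x s)) (f2 (T x s)))) := by abel
        _ = 0 := by rw [e1, e2, e3, e4]; simp
  choose lam hlamS hdlam using hlam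
  refine ⟨asm h lam + asm (fun x => B00 (f1 x) (f2 x)) be, ?_, ?_⟩
  · apply add_mem
    · apply mem_of_parts
      · intro x
        exact CS_mono (Sl_mono (Th_mono (by omega) subset_rfl) _) le_rfl (hhS x)
      · intro x s
        exact CS_mono ((Th_Sl.trans (Sl_mono (Th_Th U) _)).trans
          (Sl_mono (Th_mono (by omega) subset_rfl) _)) le_rfl (hlamS x s)
    · apply mem_of_parts
      · intro x
        exact CS_mono (Sl_mono (Th_mono (by omega) subset_rfl) _) le_rfl
          (h00S x _ _ ((kr x).mono (by omega)))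
      · intro x s
        exact CS_mono (Sl_mono (Th_mono (by omega) subset_rfl) _) le_rfl (hbeS x s)
  · apply coch_ext
    · intro x
      rw [pt_dl_none, pt_add, pt_asm_none, pt_asm_none, map_add, hdh, hd00]
      have e1 := two_self (v (g (f1 x) (f2 x)))
      calc v x + v (g (f1 x) (f2 x)) + v (g (f1 x) (f2 x))
          = v x + (v (g (f1 x) (f2 x)) + v (g (f1 x) (f2 x))) := by abel
        _ = v x := by rw [e1, add_zero]
    · intro x s
      rw [pt_dl_some, pt_add, pt_add, pt_add, pt_asm_some, pt_asm_some, pt_asm_none, pt_asm_none,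
        pt_asm_none, pt_asm_none, map_add, hdlam]
      have h1 := hdbe x s
      have e1 := two_self (h x)
      have e2 := two_self (h (T x s))
      have e3 := two_self (W x s)
      calc _ = (h x + h x) + (h (T x s) + h (T x s)) + e x s + W x s +
            (dl T (ZMod 2) M (be x s) +
              (B00 (f1 x) (f2 x) + B00 (f1 (T x s)) (f2 (T x s)))) := by abel
        _ = e x s := by
            rw [h1, e1, e2]
            calc (0 : Cell G S M → ZMod 2) + 0 + e x s + W x s + W x s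
                = e x s + (W x s + W x s) := by abel
              _ = e x s := by rw [e3, add_zero]

end Pool.Agent.FDC
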